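import Pool.Agent.MP_0de6ea_al.RW.Spec
import Mathlib.GroupTheory.QuotientGroup.Defs
import Mathlib.Data.Fintype.BigOperators
import Mathlib.Data.List.ChainOfFn

/-! From rare dependence of random relators to many marked balls. -/

namespace Pool.Agent.MP_0de6ea_al.RW

open Finset

namespace BallS

variable {d L m n : ℕ}

/-- The reduced words. -/
def W (d L : ℕ) : Finset (Wd d L) := univ.filter Rd

theorem card_red_eq (d L : ℕ) : (red (Fin d) (L + 1)).card = NW d L := by
  unfold NW
  induction L with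
  | zero => rw [card_red_succ]; simp [red]
  | succ L ih =>
    rw [card_red_succ, pow_succ, ← mul_assoc, ← ih]
    calc _ = ∑ _w ∈ red (Fin d) (L + 1), (2 * d - 1) := by
          refine sum_congr rfl fun w hw => ?_
          have : w ≠ [] := by
            rintro rfl
            simpa using (mem_red.1 hw).1
          simp [this]
      _ = _ := by simp

theorem nw_le (d L : ℕ) : NW d L ≤ (W d L).card := by
  rw [← card_red_eq]
  refine le_trans (card_le_card (t := (W d L).image List.ofFn) ?_) card_image_le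
  intro w hw
  obtain ⟨h1, h2⟩ := mem_red.1 hw
  obtain ⟨f, rfl⟩ : ∃ f : Wd d L, List.ofFn f = w :=
    ⟨fun a => w[a.1]'(by rw [h1]; exact a.2), List.ext_getElem (by simp [h1]) fun i _ _ => by
      rw [List.getElem_ofFn]⟩
  refine mem_image.2 ⟨f, mem_filter.2 ⟨mem_univ _, fun a ha => ?_⟩, rfl⟩
  have h3 := List.isChain_ofFn.1 h2 a.1 (by have := a.2; omega)
  have e1 : (⟨a.1 + 1, by have := a.2; omega⟩ : Fin (L + 1)) = a.succ := rfl
  have e2 : (⟨a.1, by have := a.2; omega⟩ : Fin (L + 1)) = a.castSucc := rfl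
  rw [e1, e2, ha] at h3
  simp [iv] at h3

theorem nw_pos (hd : 2 ≤ d) : 0 < NW d L :=
  Nat.mul_pos (by omega) (Nat.pow_pos (by omega))

theorem mem_tup {R : Fin m → Wd d L} : R ∈ Tup d L m ↔ ∀ i, R i ∈ W d L := by
  simp [Tup, W]

theorem card_tup : (Tup d L m).card = (W d L).card ^ m := by
  have : Tup d L m = Fintype.piFinset fun _ => W d L := by
    ext R; rw [mem_tup, Fintype.mem_piFinset]
  rw [this, Fintype.card_piFinset]; simp

/-- The normal closure of the words. -/
abbrev N (R : Fin m → Wd d L) : Subgroup (FreeGroup (Fin d)) :=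
  Subgroup.normalClosure (Set.range fun i => el (R i))

/-- The presented marked group. -/
def M (R : Fin m → Wd d L) : Marked d :=
  gen fun i : Fin d => (QuotientGroup.mk (FreeGroup.of i) : FreeGroup (Fin d) ⧸ N R)

theorem ev_mk (R : Fin m → Wd d L) (u : List (Fin d × Bool)) :
    ev (fun i : Fin d => (QuotientGroup.mk (FreeGroup.of i) : FreeGroup (Fin d) ⧸ N R)) u =
      QuotientGroup.mk (FreeGroup.mk u) := by
  rw [ev_eq_lift]
  have : FreeGroup.lift
      (fun i : Fin d => (QuotientGroup.mk (FreeGroup.of i) : FreeGroup (Fin d) ⧸ N R)) =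
      QuotientGroup.mk' (N R) := FreeGroup.ext_hom _ _ fun i => by simp
  rw [this]; rfl

theorem mem_iff (R : Fin m → Wd d L) (w : Wd d L) (n : ℕ) :
    el w ∈ N R ↔ ev (M R).s ((List.ofFn w).take n) =
      ev (M R).s (FreeGroup.invRev ((List.ofFn w).drop n)) := by
  unfold M
  rw [ev_gen_iff, ev_invRev, eq_inv_iff_mul_eq_one, ← ev_append, List.take_append_drop, ev_mk,
    QuotientGroup.eq_one_iff]
  rfl

theorem mem_of_iso (hn : L + 1 = 2 * n) {R R' : Fin m → Wd d L} (h : BallIso n (M R) (M R'))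
    {w : Wd d L} (hw : el w ∈ N R) : el w ∈ N R' := by
  rw [mem_iff _ _ n] at hw ⊢
  refine h.ev_eq ?_ ?_ hw
  · simp
  · rw [FreeGroup.invRev_length, List.length_drop, List.length_ofFn]; omega

open Classical in
/-- The reduced words killed by the presentation. -/
noncomputable def T (R : Fin m → Wd d L) : Finset (Wd d L) :=
  (W d L).filter fun w => el w ∈ N R

open Classical in
theorem sum_T : ∑ R ∈ Tup d L m, (T R).card ≤ ((Tup d L (m + 1)).filter Dep).card := by
  rw [← card_sigma]
  refine card_le_card_of_injOn (fun x => Fin.cons x.2 x.1) ?_ ?_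
  · rintro ⟨R, w⟩ hx
    obtain ⟨h1, h2⟩ := mem_sigma.1 (mem_coe.1 hx)
    obtain ⟨h3, h4⟩ := mem_filter.1 h2
    refine mem_coe.2 (mem_filter.2 ⟨mem_tup.2 fun i => ?_, ?_⟩)
    · refine Fin.cases ?_ (fun j => ?_) i
      · exact h3
      · exact mem_tup.1 h1 j
    · exact h4
  · rintro ⟨R, w⟩ - ⟨R', w'⟩ - h
    obtain ⟨h1, h2⟩ := Fin.cons_inj.1 h
    subst h1 h2
    rfl

open Classical in
theorem good_card (hn : L + 1 = 2 * n) :
    2 ^ m * ((Tup d L m).filter fun R => 2 * (T R).card ≤ (W d L).card).card ≤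
      fCount d n * (W d L).card ^ m := by
  set G := (Tup d L m).filter fun R => 2 * (T R).card ≤ (W d L).card with hG
  let Q := Quot (fun M M' : Marked d => BallIso n M M')
  let _ : Fintype Q := Fintype.ofFinite Q
  let f : (Fin m → Wd d L) → Q := fun R => Quot.mk _ (M R)
  have h1 : G.card = ∑ q : Q, (G.filter fun R => f R = q).card :=
    card_eq_sum_card_fiberwise fun _ _ => mem_coe.2 (mem_univ _)
  have h2 : ∀ q : Q, 2 ^ m * (G.filter fun R => f R = q).card ≤ (W d L).card ^ m := by
    intro q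
    rcases (G.filter fun R => f R = q).eq_empty_or_nonempty with h | ⟨R0, h0⟩
    · simp [h]
    obtain ⟨h3, h4⟩ := mem_filter.1 h0
    have h5 : (G.filter fun R => f R = q) ⊆ Fintype.piFinset fun _ => T R0 := by
      intro R hR
      obtain ⟨h6, h7⟩ := mem_filter.1 hR
      have hb : BallIso n (M R) (M R0) :=
        ballIso_equiv.eqvGen_iff.1 (Quot.eqvGen_exact (h7.trans h4.symm))
      refine Fintype.mem_piFinset.2 fun i => mem_filter.2
        ⟨mem_tup.1 (mem_filter.1 h6).1 i, mem_of_iso hn hb ?_⟩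
      exact Subgroup.subset_normalClosure ⟨i, rfl⟩
    have h8 := card_le_card h5
    rw [Fintype.card_piFinset, prod_const, card_univ, Fintype.card_fin] at h8
    calc _ ≤ 2 ^ m * (T R0).card ^ m := Nat.mul_le_mul_left _ h8
      _ = (2 * (T R0).card) ^ m := (mul_pow _ _ _).symm
      _ ≤ _ := Nat.pow_le_pow_left (mem_filter.1 h3).2 _
  rw [h1, mul_sum]
  calc _ ≤ ∑ _q : Q, (W d L).card ^ m := sum_le_sum fun q _ => h2 q
    _ = _ := by
      rw [sum_const, card_univ, smul_eq_mul, fCount, Nat.card_eq_fintype_card]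

open Classical in
theorem bad_card :
    ((Tup d L m).filter fun R => ¬ 2 * (T R).card ≤ (W d L).card).card * (W d L).card ≤
      2 * ∑ R ∈ Tup d L m, (T R).card := by
  rw [mul_sum, ← smul_eq_mul, ← sum_const]
  calc _ ≤ ∑ R ∈ (Tup d L m).filter fun R => ¬ 2 * (T R).card ≤ (W d L).card,
        2 * (T R).card := sum_le_sum fun R hR => (not_le.1 (mem_filter.1 hR).2).le
    _ ≤ _ := sum_le_sum_of_subset (filter_subset _ _)

end BallS

open BallS in
theorem ballS : BallStmt := by
  classical
  intro d n L m hd hn h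
  have hW : 0 < (W d L).card := (nw_pos hd).trans_le (nw_le d L)
  have h1 : 7 * ∑ R ∈ Tup d L m, (T R).card ≤ (W d L).card ^ m * (W d L).card := by
    rw [← pow_succ]
    exact (Nat.mul_le_mul_left _ sum_T).trans (h.trans (Nat.pow_le_pow_left (nw_le d L) _))
  have h2 := bad_card (d := d) (L := L) (m := m)
  have h3 := good_card (d := d) (m := m) hn
  have h4 := card_filter_add_card_filter_not (s := Tup d L m)
    fun R => 2 * (T R).card ≤ (W d L).card
  rw [card_tup] at h4
  have hp : 0 < (W d L).card ^ m := Nat.pow_pos hW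
  generalize ((Tup d L m).filter fun R => ¬ 2 * (T R).card ≤ (W d L).card).card = b at *
  generalize ((Tup d L m).filter fun R => 2 * (T R).card ≤ (W d L).card).card = g at *
  generalize (W d L).card ^ m = P at *
  have h5 : 7 * b ≤ 2 * P := by
    refine Nat.le_of_mul_le_mul_right ?_ hW
    nlinarith
  have h6 : P ≤ 2 * g := by omega
  refine Nat.le_of_mul_le_mul_right ?_ hp
  calc 2 ^ m * P ≤ 2 ^ m * (2 * g) := Nat.mul_le_mul_left _ h6
    _ = 2 * (2 ^ m * g) := by ring
    _ ≤ 2 * (fCount d n * P) := Nat.mul_le_mul_left _ h3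
    _ = _ := by ring

end Pool.Agent.MP_0de6ea_al.RW
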