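import Pool.Agent.MP_0de6ea_al.RW.Spec

/-! The number of corners at vertices of degree other than two. -/

namespace Pool.Agent.MP_0de6ea_al.RW

open Finset

namespace Brk

theorem tel (o : ℕ → Prop) [DecidablePred o] (h0 : o 0) (n : ℕ) :
    ((range n).filter fun j => ¬ o j ∧ o (j + 1)).card + (if o n then 0 else 1) =
      ((range n).filter fun j => o j ∧ ¬ o (j + 1)).card := by
  simp only [card_filter]
  induction n with
  | zero => simp [h0]
  | succ n ih =>
    rw [sum_range_succ, sum_range_succ, ← ih]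
    by_cases a : o n <;> by_cases b : o (n + 1) <;> simp [a, b]

theorem dyck (M : ℕ) (a : ℕ → ℕ) (lt : ∀ j ≤ M, a j ≤ M) (inv : ∀ j ≤ M, a (a j) = j)
    (ne : ∀ j ≤ M, a j ≠ j)
    (nc : ∀ i ≤ M, ∀ j ≤ M, i < j → j < a i → a i < a j → False) :
    ((range M).filter fun j => a (j + 1) + 1 ≠ a j).card ≤
      4 * ((range M).filter fun j => a j = j + 1).card := by
  set P := (range M).filter fun j => a j = j + 1
  set V := (range M).filter fun j => ¬ j < a j ∧ j + 1 < a (j + 1) with hV
  have pk : ∀ j < M, j < a j → ¬ j + 1 < a (j + 1) → a j = j + 1 := fun j hj h1 h2 => by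
    by_contra h
    have e1 := inv (j + 1) hj
    have e2 := ne (j + 1) hj
    have e3 : a (j + 1) ≠ j := fun e => h (by rw [← e1, e])
    exact nc (a (j + 1)) (lt _ hj) j hj.le (by omega) (by omega) (by omega)
  have vp : V.card ≤ P.card := by
    have h := tel (fun j => j < a j) (Nat.pos_of_ne_zero (ne 0 (Nat.zero_le _))) M
    refine (le_of_le_of_eq (Nat.le_add_right _ _) h).trans (card_le_card fun j hj => ?_)
    rw [mem_filter, mem_range] at hj
    exact mem_filter.2 ⟨mem_range.2 hj.1, pk j hj.1 hj.2.1 hj.2.2⟩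
  have inj : ∀ i ≤ M, ∀ j ≤ M, a i = a j → i = j := fun i hi j hj e => by
    rw [← inv i hi, e, inv j hj]
  set C1 := (range M).filter fun j => a (j + 1) + 1 ≠ a j ∧ j < a j ∧ j + 1 < a (j + 1)
  set C2 := (range M).filter fun j => a (j + 1) + 1 ≠ a j ∧ ¬ j < a j ∧ ¬ j + 1 < a (j + 1)
  have c1 : C1.card ≤ V.card := by
    refine card_le_card_of_injOn (fun j => a (j + 1)) (fun j hj => ?_) fun i hi j hj e => ?_
    · obtain ⟨hj, h1, h2, h3⟩ := mem_filter.1 (mem_coe.1 hj)
      rw [mem_range] at hj
      have e1 := inv (j + 1) hj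
      have e2 := inv j hj.le
      have e3 := lt j hj.le
      have e4 : a j ≠ j + 1 := fun e => by rw [e] at e2; omega
      have e5 : a (j + 1) ≠ a j := fun e => by have := inj _ hj _ hj.le e; omega
      have e6 : a (j + 1) < a j := by
        by_contra h
        exact nc j hj.le (j + 1) hj (by omega) (by omega) (by omega)
      obtain ⟨k, hk⟩ : ∃ k, a (j + 1) = k := ⟨_, rfl⟩
      rw [hk] at e1
      simp only [hk]
      refine mem_coe.2 (mem_filter.2 ⟨mem_range.2 (by omega), by omega, ?_⟩)
      by_contra h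
      have f1 := inv (k + 1) (by omega)
      have f2 := ne (k + 1) (by omega)
      obtain ⟨m, hm⟩ : ∃ m, a (k + 1) = m := ⟨_, rfl⟩
      rw [hm] at f1
      have f3 : m ≠ k := fun e => by rw [e] at f1; omega
      have f4 : m ≠ j + 1 := fun e => by rw [e] at f1; omega
      have f5 : m ≠ j := fun e => by rw [e] at f1; omega
      by_cases g : m < j
      · exact nc m (by omega) j hj.le g (by omega) (by omega)
      · exact nc (j + 1) hj m (by omega) (by omega) (by omega) (by omega)
    · have hi := mem_range.1 (mem_filter.1 (mem_coe.1 hi)).1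
      have hj := mem_range.1 (mem_filter.1 (mem_coe.1 hj)).1
      have := inj _ hi _ hj e
      omega
  have c2 : C2.card ≤ V.card := by
    have key : ∀ j ∈ C2, a (j + 1) + 1 < a j ∧ a j < j := fun j hj => by
      obtain ⟨hj, h1, h2, h3⟩ := mem_filter.1 hj
      rw [mem_range] at hj
      have e1 := inv (j + 1) hj
      have e2 := inv j hj.le
      have e3 := ne j hj.le
      have e4 := ne (j + 1) hj
      have e5 : a (j + 1) ≠ j := fun e => by rw [e] at e1; omega
      have e6 : a (j + 1) ≠ a j := fun e => by have := inj _ hj _ hj.le e; omega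
      have e7 : ¬ a j < a (j + 1) := fun h =>
        nc (a j) (by omega) (a (j + 1)) (by omega) h (by omega) (by omega)
      omega
    refine card_le_card_of_injOn (fun j => a j - 1) (fun j hj => ?_) fun i hi j hj e => ?_
    · obtain ⟨k1, k2⟩ := key j hj
      have hj := mem_range.1 (mem_filter.1 (mem_coe.1 hj)).1
      have e1 := inv (j + 1) hj
      have e2 := inv j hj.le
      obtain ⟨k, hk⟩ : ∃ k, a j = k + 1 := ⟨a j - 1, by omega⟩
      rw [hk] at e2
      simp only [hk, Nat.add_sub_cancel]
      refine mem_coe.2 (mem_filter.2 ⟨mem_range.2 (by omega), fun h => ?_, by omega⟩)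
      have f1 := inv k (by omega)
      have f3 : a k ≠ k + 1 := fun e => by rw [e] at f1; omega
      have f4 : a k ≠ j + 1 := fun e => by rw [e] at f1; omega
      have f5 : a k ≠ j := fun e => by rw [e] at f1; omega
      by_cases g : a k < j
      · exact nc k (by omega) (k + 1) (by omega) (by omega) (by omega) (by omega)
      · exact nc (a (j + 1)) (by omega) k (by omega) (by omega) (by omega) (by omega)
    · have k1 := (key i hi).1
      have k2 := (key j hj).1
      have hi := mem_range.1 (mem_filter.1 (mem_coe.1 hi)).1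
      have hj := mem_range.1 (mem_filter.1 (mem_coe.1 hj)).1
      exact inj _ hi.le _ hj.le (by simp only at e; omega)
  have sub : ((range M).filter fun j => a (j + 1) + 1 ≠ a j) ⊆ (P ∪ V) ∪ (C1 ∪ C2) := fun j hj => by
    obtain ⟨hj, h⟩ := mem_filter.1 hj
    simp only [mem_union]
    by_cases h1 : j < a j <;> by_cases h2 : j + 1 < a (j + 1)
    · exact .inr (.inl (mem_filter.2 ⟨hj, h, h1, h2⟩))
    · exact .inl (.inl (mem_filter.2 ⟨hj, pk j (mem_range.1 hj) h1 h2⟩))
    · exact .inl (.inr (mem_filter.2 ⟨hj, h1, h2⟩))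
    · exact .inr (.inr (mem_filter.2 ⟨hj, h, h1, h2⟩))
  have := card_le_card sub
  have := card_union_le (P ∪ V) (C1 ∪ C2)
  have := card_union_le P V
  have := card_union_le C1 C2
  omega

theorem iv_iv {d : ℕ} (x : Lt d) : iv (iv x) = x := by simp [iv]

theorem nx_inj {T : Type} {L : ℕ} (s : T → Bool) : Function.Injective (nx (L := L) s) := by
  rintro ⟨f, a⟩ ⟨g, b⟩ h
  obtain ⟨rfl, h⟩ := Prod.mk.inj h
  cases hs : s f <;> simp only [hs, if_true, if_false, Bool.false_eq_true] at h
  · rw [sub_left_injective h]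
  · rw [add_right_cancel h]

theorem wrap {T : Type} [Fintype T] {d L m : ℕ} {R : Fin m → Wd d L} {D : Dg T L}
    {lab : T → Fin m} (hR : ∀ i, Rd (R i)) (hF : D.Fit R lab) {x : Dt T L}
    (h : D.al x = nx D.s x) : x.2 = if D.s x.1 then Fin.last L else 0 := by
  obtain ⟨f, a⟩ := x
  have e := hF.le (f, a)
  rw [h] at e
  by_contra hn
  cases hs : D.s f <;> simp only [nx, sg, hs, if_true, if_false, Bool.false_eq_true] at e hn
  · obtain ⟨b, rfl⟩ := Fin.exists_succ_eq.2 hn
    rw [← Fin.coeSucc_eq_succ, add_sub_cancel_right, Fin.coeSucc_eq_succ, iv_iv] at e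
    exact hR _ b e.symm
  · obtain ⟨b, rfl⟩ := Fin.exists_castSucc_eq.2 hn
    rw [Fin.coeSucc_eq_succ] at e
    exact hR _ b e

end Brk

open Brk in
theorem brkS : BrkStmt := by
  intro T _ _ d L m R D lab hR hF
  rcases isEmpty_or_nonempty T with hT | hT
  · simp
  obtain ⟨M, hM⟩ : ∃ M, Fintype.card T * (L + 1) = M + 1 :=
    Nat.exists_eq_succ_of_ne_zero (Nat.mul_pos Fintype.card_pos L.succ_pos).ne'
  have lt : ∀ x, D.pos x ≤ M := fun x => Nat.lt_succ_iff.1 (by simpa [hM] using D.lt x)
  have sur : ∀ j ≤ M, ∃ x, D.pos x = j := fun j hj => by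
    have : univ.image D.pos = range (M + 1) := eq_of_subset_of_card_le
      (fun j hj => by
        obtain ⟨x, -, rfl⟩ := mem_image.1 hj
        exact mem_range.2 (Nat.lt_succ_of_le (lt x)))
      (by rw [card_image_of_injective _ D.inj, card_range, card_univ, Fintype.card_prod,
        Fintype.card_fin, hM])
    obtain ⟨x, -, h⟩ := mem_image.1 (this.ge (mem_range.2 (Nat.lt_succ_of_le hj)))
    exact ⟨x, h⟩
  obtain ⟨a, ha⟩ : ∃ a : ℕ → ℕ, ∀ x, a (D.pos x) = D.pos (D.al x) :=
    ⟨fun j => D.pos (D.al (Function.invFun D.pos j)), fun x => by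
      simp only [Function.leftInverse_invFun D.inj x]⟩
  have dy := dyck M a (fun j hj => by obtain ⟨x, rfl⟩ := sur j hj; rw [ha]; exact lt _)
    (fun j hj => by obtain ⟨x, rfl⟩ := sur j hj; rw [ha, ha, D.inv])
    (fun j hj => by obtain ⟨x, rfl⟩ := sur j hj; rw [ha]; exact fun e => D.ne x (D.inj e))
    fun i hi j hj => by
      obtain ⟨x, rfl⟩ := sur i hi
      obtain ⟨y, rfl⟩ := sur j hj
      rw [ha, ha]
      exact D.nc x y
  have jn := D.jn
  set J := univ.filter fun x => D.pos (nx D.s x) ≠ D.pos x + 1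
  set W : Finset (Dt T L) := univ.image fun f => (f, if D.s f then Fin.last L else 0)
  have hW : W.card ≤ Fintype.card T := card_image_le
  set P := (range M).filter fun j => a j = j + 1
  set C := (range M).filter fun j => a (j + 1) + 1 ≠ a j
  have hP : P.card ≤ (J ∪ W).card := by
    refine le_trans (card_le_card fun j hj => ?_) (card_image_le (f := D.pos))
    obtain ⟨hj, h⟩ := mem_filter.1 hj
    obtain ⟨x, rfl⟩ := sur j (mem_range.1 hj).le
    refine mem_image_of_mem _ (mem_union.2 (or_iff_not_imp_left.2 fun hx => ?_))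
    have e : D.pos (nx D.s x) = D.pos x + 1 := by simpa [J] using hx
    exact mem_image.2 ⟨x.1, mem_univ _, Prod.ext rfl
      (wrap hR hF (D.inj ((ha x).symm.trans (h.trans e.symm)))).symm⟩
  set A := univ.filter fun x => D.pos x ∈ C
  set B := univ.filter fun x => D.al (nx D.s x) ∈ J
  have hA : A.card ≤ C.card :=
    card_le_card_of_injOn D.pos (fun x hx => (mem_filter.1 (mem_coe.1 hx)).2) D.inj.injOn
  have hB : B.card ≤ J.card := card_le_card_of_injOn (fun x => D.al (nx D.s x))
    (fun x hx => (mem_filter.1 (mem_coe.1 hx)).2)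
    ((Function.Involutive.injective D.inv).comp (nx_inj D.s)).injOn
  have sum : ∑ f, D.ns f =
      (univ.filter fun x : Dt T L => nx D.s (D.al (nx D.s x)) ≠ D.al x).card := by
    simp only [Dg.ns, card_filter, Fintype.sum_prod_type]
  have sub : (univ.filter fun x : Dt T L => nx D.s (D.al (nx D.s x)) ≠ D.al x) ⊆ J ∪ (A ∪ B) := by
    intro x hx
    by_contra hn
    simp only [mem_union, not_or, J, A, B, C, mem_filter, mem_univ, true_and, not_not, not_and,
      mem_range] at hn
    obtain ⟨h1, h2, h3⟩ := hn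
    have h4 := h2 (by have := lt (nx D.s x); omega)
    rw [← h1, ha, ha, ← h3] at h4
    exact (mem_filter.1 hx).2 (D.inj h4)
  have := card_le_card sub
  have := card_union_le J (A ∪ B)
  have := card_union_le A B
  have := card_union_le J W
  omega

end Pool.Agent.MP_0de6ea_al.RW
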