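import Pool.Agent.MP_0de6ea_al.Asym

/-! Random relators near density one half: definitions and block statements. -/

namespace Pool.Agent.MP_0de6ea_al.RW

open Finset

/-- Letters. -/
abbrev Lt (d : ℕ) := Fin d × Bool

/-- The inverse letter. -/
def iv {d : ℕ} (x : Lt d) : Lt d := (x.1, !x.2)

/-- The letter or its inverse. -/
def sg {d : ℕ} (b : Bool) (x : Lt d) : Lt d := if b then x else iv x

/-- Words of length `L + 1`. -/
abbrev Wd (d L : ℕ) := Fin (L + 1) → Lt d

/-- Reduced words. -/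
def Rd {d L : ℕ} (w : Wd d L) : Prop := ∀ a : Fin L, w a.succ ≠ iv (w a.castSucc)

instance {d L : ℕ} : DecidablePred (Rd (d := d) (L := L)) := fun _ => by
  unfold Rd; infer_instance

/-- The element of the free group given by a word. -/
def el {d L : ℕ} (w : Wd d L) : FreeGroup (Fin d) := FreeGroup.mk (List.ofFn w)

/-- Tuples of reduced words. -/
def Tup (d L m : ℕ) : Finset (Fin m → Wd d L) := univ.filter fun R => ∀ i, Rd (R i)

/-- The number of reduced words of length `L + 1`. -/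
def NW (d L : ℕ) : ℕ := 2 * d * (2 * d - 1) ^ L

/-- The first word lies in the normal closure of the others. -/
def Dep {d L m : ℕ} (R : Fin (m + 1) → Wd d L) : Prop :=
  el (R 0) ∈ Subgroup.normalClosure (Set.range fun i : Fin m => el (R i.succ))

/-- Darts: a face and a position. -/
abbrev Dt (T : Type) (L : ℕ) := T × Fin (L + 1)

/-- The next dart of the face. -/
def nx {T : Type} {L : ℕ} (s : T → Bool) (x : Dt T L) : Dt T L :=
  (x.1, if s x.1 then x.2 + 1 else x.2 - 1)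

/-- A spherical diagram, cut open along a tree: a linear order of the darts in which neither the
faces nor the edges interlace. -/
structure Dg (T : Type) [Fintype T] (L : ℕ) where
  s : T → Bool
  al : Dt T L → Dt T L
  pos : Dt T L → ℕ
  inv : ∀ x, al (al x) = x
  ne : ∀ x, al x ≠ x
  inj : Function.Injective pos
  lt : ∀ x, pos x < Fintype.card T * (L + 1)
  nc : ∀ x y, pos x < pos y → pos y < pos (al x) → pos (al x) < pos (al y) → False
  nf : ∀ x x' y y' : Dt T L, x.1 = x'.1 → y.1 = y'.1 → x.1 ≠ y.1 →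
    pos x < pos y → pos y < pos x' → pos x' < pos y' → False
  jn : (univ.filter fun x => pos (nx s x) ≠ pos x + 1).card ≤ 3 * Fintype.card T

section
variable {T : Type} [Fintype T] [DecidableEq T] {d L m : ℕ}

/-- The faces carry the words `R`, and no edge joins a face to its mirror image. -/
structure Dg.Fit (D : Dg T L) (R : Fin m → Wd d L) (lab : T → Fin m) : Prop where
  le : ∀ x, sg (D.s (D.al x).1) (R (lab (D.al x).1) (D.al x).2) =
    iv (sg (D.s x.1) (R (lab x.1) x.2))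
  nm : ∀ x, ¬ (lab (D.al x).1 = lab x.1 ∧ (D.al x).2 = x.2)

/-- The number of corners of the face `f` at a vertex of degree other than two. -/
def Dg.ns (D : Dg T L) (f : T) : ℕ :=
  (univ.filter fun a : Fin (L + 1) => nx D.s (D.al (nx D.s (f, a))) ≠ D.al (f, a)).card

/-- The number of darts of faces in `U` whose partner lies outside `U`. -/
def Dg.bd (D : Dg T L) (U : Finset T) : ℕ :=
  (univ.filter fun x : Dt T L => x.1 ∈ U ∧ (D.al x).1 ∉ U).card

/-- Faces with a common edge. -/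
def Dg.Adj (D : Dg T L) (f g : T) : Prop := ∃ a, (D.al (f, a)).1 = g

end

/-- `B` is connected for the relation `r`. -/
def Conn {T : Type} (r : T → T → Prop) (B : Finset T) : Prop :=
  ∀ x ∈ B, ∀ y ∈ B, Relation.ReflTransGen (fun u v => r u v ∧ u ∈ B ∧ v ∈ B) x y

/-- No minor isomorphic to the complete graph on five vertices. -/
def NoK5 {T : Type} (r : T → T → Prop) : Prop :=
  ∀ B : Fin 5 → Finset T, (∀ i, Conn r (B i)) → (∀ i j, i ≠ j → Disjoint (B i) (B j)) →
    (∀ i j, i ≠ j → ∃ u ∈ B i, ∃ v ∈ B j, r u v) → False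

/-- Values of a pattern. -/
abbrev Pv (s L : ℕ) := Option (Fin s × Fin (L + 1) × Bool)

/-- The value that continues an arc. -/
def pn {s L : ℕ} : Pv s L → Pv s L :=
  Option.map fun v => (v.1, if v.2.2 then v.2.1 + 1 else v.2.1 - 1, v.2.2)

/-- The words satisfy the pattern. -/
def Cons {d L m s : ℕ} (R : Fin m → Wd d L) (j : Fin s → Fin m)
    (p : Fin s → Fin (L + 1) → Pv s L) : Prop :=
  ∀ k a v, p k a = some v → R (j k) a = sg v.2.2 (R (j v.1) v.2.1)

/-- The number of letters fixed by earlier letters. -/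
noncomputable def det {s L : ℕ} (p : Fin s → Fin (L + 1) → Pv s L) (k : Fin s) : ℕ := by
  classical
  exact (univ.filter fun a => ∃ v, p k a = some v ∧ (v.1 < k ∨ v.1 = k ∧ v.2.1 < a)).card

/-- The number of breaks. -/
def brk {s L : ℕ} (q : Fin (L + 1) → Pv s L) : ℕ :=
  (univ.filter fun a : Fin L => q a.succ ≠ pn (q a.castSucc)).card

/-- The bound for the size of the local pieces. -/
def KK (L : ℕ) : ℕ := 5 * (9000 * (L + 23)) ^ 4

/-- The bound for the number of values of a pattern. -/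
def QQ (L : ℕ) : ℕ := 1 + 2 * KK L * (L + 1)

/-- Some small pattern that fixes too many letters is satisfied. -/
def Bad {d L m : ℕ} (R : Fin m → Wd d L) : Prop :=
  ∃ (s : ℕ) (j : Fin s → Fin m) (p : Fin s → Fin (L + 1) → Pv s L), s ≤ KK L ∧
    Function.Injective j ∧ Cons R j p ∧
    (24 * m * QQ L) ^ s * (QQ L * (L + 1)) ^ (∑ k, brk (p k)) < (2 * d - 1) ^ (∑ k, det p k)

/-! ### Statements -/

def VkStmt : Prop := ∀ (d L m : ℕ) (R : Fin (m + 1) → Wd d L), (∀ i, Rd (R i)) → Dep R →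
  ∃ (t : ℕ) (D : Dg (Fin (t + 1)) L) (lab : Fin (t + 1) → Fin (m + 1)), D.Fit R lab

def BrkStmt : Prop := ∀ (T : Type) [Fintype T] [DecidableEq T] (d L m : ℕ) (R : Fin m → Wd d L)
  (D : Dg T L) (lab : T → Fin m), (∀ i, Rd (R i)) → D.Fit R lab →
  ∑ f, D.ns f ≤ 22 * Fintype.card T

def K5Stmt : Prop := ∀ (T : Type) [Fintype T] [DecidableEq T] (L : ℕ) (D : Dg T L), NoK5 D.Adj

def SepStmt : Prop := ∀ (T : Type) [DecidableEq T] (r : T → T → Prop), (∀ u v, r u v → r v u) →
  NoK5 r → ∀ (U : Finset T) (l k : ℕ), 1 ≤ l → U.card < 2 ^ k →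
  ∃ U1 U2 : Finset T, U1 ⊆ U ∧ U2 ⊆ U ∧ Disjoint U1 U2 ∧ (∀ u ∈ U1, ∀ v ∈ U2, ¬ r u v) ∧
    4 * U1.card ≤ 3 * U.card ∧ 4 * U2.card ≤ 3 * U.card ∧
    l * (U \ (U1 ∪ U2)).card ≤ U.card + l * (32 * l * k + 36)

def FolStmt : Prop := ∀ (T : Type) [Fintype T] [DecidableEq T] [Nonempty T] (L : ℕ) (D : Dg T L),
  ∑ f, D.ns f ≤ 22 * Fintype.card T →
  ∃ U : Finset T, U.Nonempty ∧ U.card ≤ KK L ∧ D.bd U + ∑ f ∈ U, D.ns f ≤ 23 * U.card

open Classical in
def CntStmt : Prop := ∀ (d L m : ℕ), 2 ≤ d → 1 ≤ m →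
  7 * ((Tup d L m).filter Bad).card ≤ NW d L ^ m

def DetStmt : Prop := ∀ (T : Type) [Fintype T] [DecidableEq T] (d L m : ℕ) (R : Fin m → Wd d L)
  (D : Dg T L) (lab : T → Fin m) (U : Finset T), 2 ≤ d → D.Fit R lab → U.Nonempty →
  U.card ≤ KK L → D.bd U + ∑ f ∈ U, D.ns f ≤ 23 * U.card → ¬ Bad R →
  (2 * d - 1) ^ (L + 1) ≤ (2 * d - 1) ^ 23 * (24 * m * QQ L) ^ 2 * (QQ L * (L + 1)) ^ 46

open Classical in
/-- From rare dependence to many balls. -/
def BallStmt : Prop := ∀ (d n L m : ℕ), 2 ≤ d → L + 1 = 2 * n →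
  7 * ((Tup d L (m + 1)).filter Dep).card ≤ NW d L ^ (m + 1) → 2 ^ m ≤ 2 * fCount d n

end Pool.Agent.MP_0de6ea_al.RW
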