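import Mathlib.Algebra.BigOperators.Fin
import Mathlib.Algebra.BigOperators.Ring.Finset
import Mathlib.Algebra.Order.BigOperators.Ring.Finset
import Mathlib.Analysis.Complex.ExponentialBounds
import Pool.Agent.MP_0de6ea_al.RW.Spec

/-! Few tuples satisfy a small pattern that fixes too many letters. -/

namespace Pool.Agent.MP_0de6ea_al.RW

open Finset

namespace Cnt

theorem fill {Ω I α : Type} [Fintype I] (S : Finset Ω) (co : Ω → I → α)
    (hco : Function.Injective co) (rk : I → ℕ) (c : I → Ω → Finset α) (n : I → ℕ)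
    (dep : ∀ x R R', (∀ y, rk y < rk x → co R y = co R' y) → c x R = c x R')
    (mem : ∀ R ∈ S, ∀ x, co R x ∈ c x R) (hn : ∀ x R, (c x R).card ≤ n x) :
    S.card ≤ ∏ x, n x := by
  classical
  have h : S.card ≤ (Fintype.piFinset fun x => range (n x)).card := by
    refine card_le_card_of_injOn (fun R x => (c x R).toList.idxOf (co R x)) (fun R hR => ?_)
      fun R hR R' hR' e => hco ?_
    · refine mem_coe.2 (Fintype.mem_piFinset.2 fun x => mem_range.2 ?_)
      have := List.idxOf_lt_length_of_mem (mem_toList.2 (mem R hR x))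
      rw [length_toList] at this
      exact this.trans_le (hn x R)
    · have : ∀ r x, rk x = r → co R x = co R' x := by
        intro r
        induction r using Nat.strong_induction_on with
        | _ r ih =>
          intro x hx
          have e1 := dep x R R' fun y hy => ih _ (hx ▸ hy) y rfl
          have e2 := congrFun e x
          simp only [← e1] at e2
          exact (List.idxOf_inj (mem_toList.2 (mem R hR x))).1 e2
      exact funext fun x => this _ x rfl
  simpa using h

theorem transfer {V : Type} [Fintype V] (w : V → V → ℝ) (c : ℝ) (h0 : ∀ u v, 0 ≤ w u v)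
    (hc : 0 ≤ c) (h : ∀ u, ∑ v, w u v ≤ c) (n : ℕ) :
    ∑ q : Fin (n + 1) → V, ∏ a : Fin n, w (q a.castSucc) (q a.succ) ≤ Fintype.card V * c ^ n := by
  classical
  induction n with
  | zero => simp
  | succ n ih =>
    rw [← (Fin.snocEquiv fun _ => V).sum_comp, Fintype.sum_prod_type, sum_comm]
    calc _ ≤ ∑ q : Fin (n + 1) → V, (∏ a : Fin n, w (q a.castSucc) (q a.succ)) * c := by
          refine sum_le_sum fun q _ => ?_
          refine le_trans (le_of_eq ?_) (mul_le_mul_of_nonneg_left (h (q (Fin.last n)))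
            (prod_nonneg fun a _ => h0 _ _))
          rw [mul_sum]
          refine sum_congr rfl fun v _ => ?_
          rw [Fin.prod_univ_castSucc]
          simp only [Fin.snocEquiv_apply, Fin.succ_castSucc, Fin.snoc_castSucc, Fin.succ_last,
            Fin.snoc_last]
      _ ≤ _ := by
          rw [← sum_mul, pow_succ, ← mul_assoc]
          exact mul_le_mul_of_nonneg_right ih hc

variable {d L m s : ℕ}

open Classical in
/-- The places that are counted. -/
noncomputable def DS (p : Fin s → Fin (L + 1) → Pv s L) : Finset (Fin s × Fin (L + 1)) :=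
  univ.filter fun x => ∃ v, p x.1 x.2 = some v ∧ (v.1 < x.1 ∨ v.1 = x.1 ∧ v.2.1 < x.2)

theorem card_DS (p : Fin s → Fin (L + 1) → Pv s L) : (DS p).card = ∑ k, det p k := by
  rw [DS, card_filter, Fintype.sum_prod_type]
  refine sum_congr rfl fun k _ => ?_
  rw [det, card_filter]

/-- The number of letters that are allowed. -/
def n0 (d : ℕ) (a : Fin (L + 1)) : ℕ := if a = 0 then 2 * d else 2 * d - 1

theorem prod_n0 : ∏ x : Fin m × Fin (L + 1), n0 d x.2 = NW d L ^ m := by
  rw [Fintype.prod_prod_type]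
  simp [Fin.prod_univ_succ, n0, NW]

open Classical in
theorem count (j : Fin s → Fin m) (hj : Function.Injective j)
    (p : Fin s → Fin (L + 1) → Pv s L) (S : Finset (Fin m → Wd d L))
    (hS : ∀ R ∈ S, (∀ i, Rd (R i)) ∧ Cons R j p) :
    S.card * (2 * d - 1) ^ (∑ k, det p k) ≤ NW d L ^ m := by
  set DI := (DS p).image (Prod.map j id) with hDI
  have cI : DI.card = ∑ k, det p k := by
    rw [hDI, card_image_of_injective _ (hj.prodMap Function.injective_id), card_DS]
  set key : Fin m → ℕ := Function.extend j (fun k => (k : ℕ)) 0 with hkey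
  have hk : ∀ k, key (j k) = k := fun k => hj.extend_apply _ _ k
  have h := fill (I := Fin m × Fin (L + 1)) S (fun R x => R x.1 x.2)
    (fun R R' e => funext fun i => funext fun a => congrFun e (i, a))
    (fun x => key x.1 * (L + 1) + x.2)
    (fun x R => univ.filter fun t => (∀ k v, x.1 = j k → p k x.2 = some v →
      (v.1 < k ∨ v.1 = k ∧ v.2.1 < x.2) → t = sg v.2.2 (R (j v.1) v.2.1)) ∧
      ∀ b : Fin L, x.2 = b.succ → t ≠ iv (R x.1 b.castSucc))
    (fun x => if x ∈ DI then 1 else n0 d x.2) ?_ ?_ ?_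
  · calc _ ≤ (∏ x, if x ∈ DI then 1 else n0 d x.2) * ∏ x, if x ∈ DI then 2 * d - 1 else 1 := by
          rw [prod_ite_mem, univ_inter, prod_const, cI]
          exact Nat.mul_le_mul_right _ h
      _ ≤ _ := by
          rw [← prod_mul_distrib, ← prod_n0]
          refine prod_le_prod' fun x _ => ?_
          split_ifs
          · unfold n0; split_ifs <;> omega
          · omega
  · intro x R R' e
    refine filter_congr fun t _ => and_congr ?_ ?_
    · refine forall₂_congr fun k v => forall₃_congr fun h1 _ h3 => ?_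
      rw [show R (j v.1) v.2.1 = R' (j v.1) v.2.1 from e (j v.1, v.2.1) ?_]
      simp only [h1, hk]
      rcases h3 with h3 | ⟨h3, h4⟩
      · have := Nat.mul_le_mul_right (L + 1) (Nat.succ_le_of_lt (Fin.lt_def.1 h3))
        have := v.2.1.2
        rw [Nat.succ_mul] at *
        omega
      · have := Fin.lt_def.1 h4
        rw [h3]
        omega
    · refine forall₂_congr fun b h1 => ?_
      rw [show R x.1 b.castSucc = R' x.1 b.castSucc from e (x.1, b.castSucc) (by simp [h1])]
  · intro R hR x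
    refine mem_filter.2 ⟨mem_univ _, fun k v h1 h2 _ => ?_, fun b h1 => ?_⟩
    · rw [h1]; exact (hS R hR).2 k _ v h2
    · rw [h1]; exact (hS R hR).1 x.1 b
  · intro x R
    split_ifs with hx
    · obtain ⟨y, hy, rfl⟩ := mem_image.1 hx
      obtain ⟨v, h1, h2⟩ := (mem_filter.1 hy).2
      exact card_le_one.2 fun a ha b hb =>
        ((mem_filter.1 ha).2.1 _ v rfl h1 h2).trans ((mem_filter.1 hb).2.1 _ v rfl h1 h2).symm
    · have cu : (univ : Finset (Lt d)).card = 2 * d := by simp [mul_comm]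
      unfold n0
      split_ifs with h0
      · exact cu ▸ card_le_univ _
      · obtain ⟨b, hb⟩ := Fin.exists_succ_eq.2 h0
        rw [← cu, ← card_erase_of_mem (mem_univ (iv (R x.1 b.castSucc)))]
        exact card_le_card fun t ht =>
          mem_erase.2 ⟨(mem_filter.1 ht).2.2 b hb.symm, mem_univ _⟩

theorem sum_brk {Q : ℕ} (hs : 1 + 2 * s * (L + 1) ≤ Q) : ∑ q : Fin (L + 1) → Pv s L,
    ((Q * (L + 1) : ℕ) : ℝ)⁻¹ ^ brk q ≤ 3 * Q := by
  classical
  set z : ℝ := ((Q * (L + 1) : ℕ) : ℝ)⁻¹ with hz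
  have z0 : 0 ≤ z := by positivity
  have hQ : (Fintype.card (Pv s L) : ℝ) ≤ Q := by
    have : Fintype.card (Pv s L) ≤ Q := by
      simp only [Fintype.card_option, Fintype.card_prod, Fintype.card_fin, Fintype.card_bool]
      exact le_trans (le_of_eq (by ring)) hs
    exact_mod_cast this
  have Q0 : (0 : ℝ) < Q := by exact_mod_cast (by omega : 0 < Q)
  have h := transfer (fun u v : Pv s L => if v ≠ pn u then z else 1)
    (1 + ((L + 1 : ℕ) : ℝ)⁻¹) (fun u v => by split_ifs <;> positivity) (by positivity) (fun u => by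
      calc _ ≤ ∑ v, ((if v = pn u then 1 else 0) + z) :=
            sum_le_sum fun v _ => by by_cases h : v = pn u <;> simp [h, z0]
        _ = 1 + Fintype.card (Pv s L) * z := by simp [sum_add_distrib]
        _ ≤ 1 + Q * z := by gcongr
        _ = _ := by rw [hz]; push_cast; field_simp) L
  have e : (1 + ((L + 1 : ℕ) : ℝ)⁻¹) ^ L ≤ 3 :=
    ((pow_le_pow_right₀ (le_add_of_nonneg_right (by positivity)) L.le_succ).trans
      Real.one_add_inv_pow_le_exp).trans Real.exp_one_lt_three.le
  calc _ = _ := sum_congr rfl fun q _ => by rw [prod_ite, prod_const_one, mul_one, prod_const, brk]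
    _ ≤ _ := h
    _ ≤ Q * 3 := by gcongr
    _ = _ := mul_comm _ _

open Classical in
/-- The tuples that are bad for a given pattern. -/
noncomputable def BB (d Q : ℕ) (j : Fin s → Fin m) (p : Fin s → Fin (L + 1) → Pv s L) :
    Finset (Fin m → Wd d L) := (Tup d L m).filter fun R => Function.Injective j ∧ Cons R j p ∧
  (24 * m * Q) ^ s * (Q * (L + 1)) ^ (∑ k, brk (p k)) < (2 * d - 1) ^ (∑ k, det p k)

open Classical in
theorem card_BB {Q : ℕ} (Q0 : 0 < Q) (hm : 1 ≤ m)
    (j : Fin s → Fin m) (p : Fin s → Fin (L + 1) → Pv s L) :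
    ((BB d Q j p).card : ℝ) ≤ (NW d L ^ m : ℕ) * ((24 * m * Q : ℕ) : ℝ)⁻¹ ^ s *
      ∏ k, ((Q * (L + 1) : ℕ) : ℝ)⁻¹ ^ brk (p k) := by
  rcases (BB d Q j p).eq_empty_or_nonempty with h | ⟨R, hR⟩
  · rw [h, card_empty, Nat.cast_zero]; positivity
  · obtain ⟨-, hj, -, hlt⟩ := mem_filter.1 hR
    have h := (Nat.mul_le_mul_left _ hlt.le).trans (count j hj p (BB d Q j p) fun R hR =>
      ⟨(mem_filter.1 (mem_filter.1 hR).1).2, (mem_filter.1 hR).2.2.1⟩)
    rw [prod_pow_eq_pow_sum, inv_pow, inv_pow, mul_assoc, ← mul_inv, ← div_eq_mul_inv,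
      le_div_iff₀ (by positivity)]
    exact_mod_cast h

theorem level {Q : ℕ} (hm : 1 ≤ m) (hs : 1 + 2 * s * (L + 1) ≤ Q) :
    ∑ j : Fin s → Fin m, ∑ p : Fin s → Fin (L + 1) → Pv s L, ((BB d Q j p).card : ℝ) ≤
      (NW d L ^ m : ℕ) * (1 / 8) ^ s := by
  classical
  have Q0 : (0 : ℝ) < Q := by exact_mod_cast (by omega : 0 < Q)
  have m0 : (0 : ℝ) < m := by exact_mod_cast hm
  have h : ∑ p : Fin s → Fin (L + 1) → Pv s L,
      ∏ k, ((Q * (L + 1) : ℕ) : ℝ)⁻¹ ^ brk (p k) ≤ (3 * Q) ^ s := by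
    rw [← Fintype.piFinset_univ, ← prod_univ_sum (fun _ : Fin s => univ)
      fun _ q => ((Q * (L + 1) : ℕ) : ℝ)⁻¹ ^ brk q]
    refine (prod_le_prod (fun _ _ => by positivity) fun _ _ => sum_brk hs).trans ?_
    simp
  calc _ ≤ ∑ _j : Fin s → Fin m, ((NW d L ^ m : ℕ) : ℝ) * ((24 * m * Q : ℕ) : ℝ)⁻¹ ^ s *
          (3 * Q) ^ s := by
        refine sum_le_sum fun j _ => (sum_le_sum fun p _ => card_BB (by omega) hm j p).trans ?_
        rw [← mul_sum]
        gcongr
    _ = _ := by
        have : (1 / 8 : ℝ) = m * (((24 * m * Q : ℕ) : ℝ)⁻¹ * (3 * Q)) := by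
          push_cast; field_simp; norm_num
        rw [this, mul_pow, mul_pow]
        simp only [sum_const, card_univ, Fintype.card_fun, Fintype.card_fin, nsmul_eq_mul,
          Nat.cast_pow]
        ring

theorem geo (n : ℕ) : ∑ s ∈ range n, (1 / 8 : ℝ) ^ (s + 1) = (1 - (1 / 8) ^ n) / 7 := by
  induction n with
  | zero => simp
  | succ n ih => rw [sum_range_succ, ih]; ring

open Classical in
theorem total (K Q : ℕ) (hm : 1 ≤ m) (hQ : 1 + 2 * K * (L + 1) ≤ Q)
    (S : Finset (Fin m → Wd d L))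
    (hS : ∀ R ∈ S, ∃ s ≤ K, ∃ (j : Fin s → Fin m) (p : Fin s → Fin (L + 1) → Pv s L),
      R ∈ BB d Q j p) : 7 * S.card ≤ NW d L ^ m := by
  have h1 : S ⊆ (range K).biUnion fun s =>
      (univ : Finset (Fin (s + 1) → Fin m)).biUnion fun j => univ.biUnion fun p => BB d Q j p := by
    intro R hR
    obtain ⟨s, hs, j, p, h⟩ := hS R hR
    cases s with
    | zero => simpa using (mem_filter.1 h).2.2.2
    | succ s =>
      exact mem_biUnion.2 ⟨s, mem_range.2 hs, mem_biUnion.2 ⟨j, mem_univ _,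
        mem_biUnion.2 ⟨p, mem_univ _, h⟩⟩⟩
  have h2 := (card_le_card h1).trans (card_biUnion_le.trans (sum_le_sum fun s _ =>
    card_biUnion_le.trans (sum_le_sum fun j _ => card_biUnion_le)))
  have h3 : (S.card : ℝ) ≤ ∑ s ∈ range K, ((NW d L ^ m : ℕ) : ℝ) * (1 / 8) ^ (s + 1) :=
    le_trans (by exact_mod_cast h2) (sum_le_sum fun s hs => level hm (le_trans
      (Nat.add_le_add_left (Nat.mul_le_mul_right _ (Nat.mul_le_mul_left 2 (mem_range.1 hs))) 1) hQ))
  rw [← mul_sum, geo] at h3
  have h4 : (0 : ℝ) ≤ ((NW d L ^ m : ℕ) : ℝ) * (1 / 8) ^ K := by positivity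
  have h5 : (7 : ℝ) * S.card ≤ (NW d L ^ m : ℕ) := by linarith
  exact_mod_cast h5

end Cnt

open Classical in
theorem cntS : CntStmt := by
  intro d L m _ hm
  refine Cnt.total (KK L) (QQ L) hm le_rfl _ fun R hR => ?_
  obtain ⟨hT, s, j, p, hs, h⟩ := mem_filter.1 hR
  exact ⟨s, hs, j, p, mem_filter.2 ⟨hT, h⟩⟩

end Pool.Agent.MP_0de6ea_al.RW
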