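import Pool.Agent.MP_0de6ea_al.RW.Spec
import Mathlib.Data.Fin.Tuple.Sort
import Mathlib.Analysis.SpecialFunctions.Log.Basic

/-! A small piece with few corners gives a pattern that fixes many letters. -/

namespace Pool.Agent.MP_0de6ea_al.RW

open Finset

namespace Det

theorem lg_iff {a b : ℕ} (ha : 0 < a) (hb : 0 < b) : Real.log a ≤ Real.log b ↔ a ≤ b := by
  rw [Real.log_le_log_iff (by exact_mod_cast ha) (by exact_mod_cast hb)]
  exact Nat.cast_le

/-- Summation by parts. -/
theorem parts (a : ℕ → ℕ) (z : ℕ → ℝ) (ha : Antitone a)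
    (h : ∀ n, 0 < a n → ∑ k ∈ range (n + 1), z k ≤ 0) (n : ℕ) :
    ∑ k ∈ range n, (a k : ℝ) * z k ≤ a n * ∑ k ∈ range n, z k := by
  induction n with
  | zero => simp
  | succ n ih =>
    have h1 : (a (n + 1) : ℝ) ≤ a n := Nat.cast_le.2 (ha n.le_succ)
    have h2 : ∑ k ∈ range (n + 1), (a k : ℝ) * z k ≤ a n * ∑ k ∈ range (n + 1), z k := by
      rw [sum_range_succ, sum_range_succ, mul_add]
      linarith
    refine h2.trans ?_
    rcases (a n).eq_zero_or_pos with e | e
    · have e' : a (n + 1) = 0 := Nat.le_zero.1 (e ▸ ha n.le_succ)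
      rw [e, e']
    · exact mul_le_mul_of_nonpos_right h1 (h n e)

theorem abl {T : Type} (U : Finset T) (rk : T → ℕ) (y : T → ℝ)
    (ha : Antitone fun k => (U.filter fun f => rk f = k).card)
    (h : ∀ (s : ℕ) (F : Fin s → T), (∀ k, F k ∈ U ∧ rk (F k) = k) → ∑ k, y (F k) ≤ 0) :
    ∑ f ∈ U, y f ≤ 0 := by
  have hz : ∀ k : ℕ, ∃ z : ℝ, (∀ f ∈ U, rk f = k → y f ≤ z) ∧
      (0 < (U.filter fun f => rk f = k).card → ∃ f ∈ U, rk f = k ∧ y f = z) := fun k => by
    rcases (U.filter fun f => rk f = k).eq_empty_or_nonempty with e | e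
    · refine ⟨0, fun f hf hk => ?_, fun h0 => ?_⟩
      · exact absurd (e ▸ mem_filter.2 ⟨hf, hk⟩) (notMem_empty f)
      · rw [e] at h0
        exact absurd h0 (lt_irrefl _)
    · obtain ⟨f, hf, hm⟩ := exists_max_image _ y e
      exact ⟨y f, fun g hg hk => hm g (mem_filter.2 ⟨hg, hk⟩),
        fun _ => ⟨f, (mem_filter.1 hf).1, (mem_filter.1 hf).2, rfl⟩⟩
  choose z z1 z2 using hz
  have hn : ∀ f ∈ U, rk f ∈ range (U.sup rk + 1) := fun f hf =>
    mem_range.2 (Nat.lt_succ_of_le (le_sup hf))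
  have h0 : (U.filter fun f => rk f = U.sup rk + 1) = ∅ := filter_eq_empty_iff.2 fun f hf e => by
    have := mem_range.1 (hn f hf)
    omega
  have h1 := parts _ z ha (fun n hp => by
    choose F F1 F2 F3 using fun k : Fin (n + 1) => z2 k (hp.trans_le (ha (Nat.lt_succ_iff.1 k.2)))
    have := h _ F fun k => ⟨F1 k, F2 k⟩
    rwa [sum_congr rfl fun k _ => F3 k, Fin.sum_univ_eq_sum_range z] at this) (U.sup rk + 1)
  rw [h0, card_empty, Nat.cast_zero, zero_mul] at h1
  refine (sum_le_sum fun f hf => z1 (rk f) f hf rfl).trans (le_of_eq_of_le ?_ h1)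
  rw [← sum_fiberwise_of_maps_to' hn z]
  exact sum_congr rfl fun k _ => by rw [sum_const, nsmul_eq_mul]

theorem rank {T : Type} {m : ℕ} (U : Finset T) (lab : T → Fin m) : ∃ ρ : Fin m → ℕ,
    Function.Injective ρ ∧ Antitone fun k => (U.filter fun f => ρ (lab f) = k).card := by
  let μ : Fin m → ℕᵒᵈ := fun i => OrderDual.toDual (U.filter fun f => lab f = i).card
  refine ⟨fun i => (Tuple.sort μ).symm i, Fin.val_injective.comp (Tuple.sort μ).symm.injective,
    fun k k' hk => ?_⟩
  have e : ∀ i : Fin m, (U.filter fun f => (((Tuple.sort μ).symm (lab f) : Fin m) : ℕ) = i) =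
      U.filter fun f => lab f = Tuple.sort μ i := fun i =>
    filter_congr fun f _ => by rw [Fin.val_inj, Equiv.symm_apply_eq]
  by_cases h : k' < m
  · have h1 := Tuple.monotone_sort μ (show (⟨k, hk.trans_lt h⟩ : Fin m) ≤ ⟨k', h⟩ from hk)
    exact (congrArg card (e ⟨k', h⟩)).trans_le
      (le_of_le_of_eq h1 (congrArg card (e ⟨k, hk.trans_lt h⟩)).symm)
  · refine le_of_eq_of_le (card_eq_zero.2 (filter_eq_empty_iff.2 fun f _ e' => h ?_)) (Nat.zero_le _)
    exact e' ▸ Fin.is_lt _

variable {T : Type} [Fintype T] [DecidableEq T] {d L m : ℕ} (D : Dg T L) (U : Finset T)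
  (rk : T → ℕ)

/-- The partner of the dart is inside and earlier. -/
def Ow (x : Dt T L) : Prop := (D.al x).1 ∈ U ∧
  (rk (D.al x).1 < rk x.1 ∨ rk (D.al x).1 = rk x.1 ∧ (D.al x).2 < x.2)

instance : DecidablePred (Ow D U rk) := fun _ => by
  unfold Ow; infer_instance

/-- The number of such darts of a face. -/
def own (f : T) : ℕ := (univ.filter fun a => Ow D U rk (f, a)).card

theorem own_sum (h : ∀ x, ¬ (rk (D.al x).1 = rk x.1 ∧ (D.al x).2 = x.2)) :
    U.card * (L + 1) ≤ D.bd U + 2 * ∑ f ∈ U, own D U rk f := by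
  let O : Finset (Dt T L) := (U ×ˢ univ).filter (Ow D U rk)
  have h1 : O.card = ∑ f ∈ U, own D U rk f := by
    simp only [O, own, card_filter, sum_product]
  have h2 : U ×ˢ univ ⊆ (univ.filter fun x : Dt T L => x.1 ∈ U ∧ (D.al x).1 ∉ U) ∪
      (O ∪ O.image D.al) := fun x hx => by
    have hU := (mem_product.1 hx).1
    by_cases h3 : (D.al x).1 ∈ U
    · refine mem_union_right _ ?_
      by_cases h4 : Ow D U rk x
      · exact mem_union_left _ (mem_filter.2 ⟨hx, h4⟩)
      · refine mem_union_right _ (mem_image.2 ⟨D.al x,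
          mem_filter.2 ⟨mem_product.2 ⟨h3, mem_univ _⟩, ?_⟩, D.inv x⟩)
        have h5 := h x
        simp only [Ow, D.inv, h3, hU, true_and, Fin.lt_def, Fin.ext_iff] at h4 h5 ⊢
        omega
    · exact mem_union_left _ (mem_filter.2 ⟨mem_univ _, hU, h3⟩)
  have h3 := (card_le_card h2).trans ((card_union_le _ _).trans
    (Nat.add_le_add_left ((card_union_le _ _).trans (Nat.add_le_add_left card_image_le _)) _))
  rw [card_product, card_univ, Fintype.card_fin, h1] at h3
  rw [two_mul]
  exact h3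

/-- The value of the pattern for a face of sign `b` at a dart with partner `y`. -/
def val (s : ℕ) (b : Bool) (y : Dt T L) : Pv s L :=
  if h : y.1 ∈ U ∧ rk y.1 < s then some (⟨rk y.1, h.2⟩, y.2, decide (b ≠ D.s y.1)) else none

/-- The pattern. -/
def pat {s : ℕ} (F : Fin s → T) (k : Fin s) (a : Fin (L + 1)) : Pv s L :=
  val D U rk s (D.s (F k)) (D.al (F k, a))

theorem val_t (s : ℕ) (y : Dt T L) : val D U rk s true y = pn (val D U rk s true (nx D.s y)) := by
  unfold val pn nx
  by_cases h : y.1 ∈ U ∧ rk y.1 < s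
  · rw [dif_pos h, dif_pos h]
    cases D.s y.1 <;> simp
  · rw [dif_neg h, dif_neg h]
    rfl

theorem val_f (s : ℕ) (y : Dt T L) :
    val D U rk s false (nx D.s y) = pn (val D U rk s false y) := by
  unfold val pn nx
  by_cases h : y.1 ∈ U ∧ rk y.1 < s
  · rw [dif_pos h, dif_pos h]
    cases D.s y.1 <;> simp
  · rw [dif_neg h, dif_neg h]
    rfl

theorem brk_le {s : ℕ} (F : Fin s → T) (k : Fin s) : brk (pat D U rk F k) ≤ D.ns (F k) := by
  refine card_le_card_of_injOn (fun a => if D.s (F k) then a.castSucc else a.succ)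
    (fun a ha => ?_) fun a _ b _ e => ?_
  · have h1 := (mem_filter.1 ha).2
    refine mem_filter.2 ⟨mem_univ _, fun e => h1 ?_⟩
    unfold pat
    cases hs : D.s (F k)
    · have h2 : nx D.s (F k, a.succ) = (F k, a.castSucc) := by
        simp only [nx, hs, Bool.false_eq_true, if_false, ← Fin.coeSucc_eq_succ, add_sub_cancel_right]
      simp only [hs, Bool.false_eq_true, if_false, h2] at e
      rw [← e, val_f]
    · have h2 : nx D.s (F k, a.castSucc) = (F k, a.succ) := by
        simp only [nx, hs, if_true, Fin.coeSucc_eq_succ]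
      simp only [hs, if_true, h2] at e
      rw [← e, val_t]
  · cases hs : D.s (F k)
    · simpa [hs] using e
    · simpa [hs] using e

theorem own_le {s : ℕ} (F : Fin s → T) (k : Fin s) (hk : rk (F k) = k) :
    own D U rk (F k) ≤ det (pat D U rk F) k := by
  classical
  refine card_le_card fun a ha => ?_
  obtain ⟨h1, h2⟩ := (mem_filter.1 ha).2
  have h3 : rk (D.al (F k, a)).1 < s := by
    have := k.2
    simp only at h2
    omega
  refine mem_filter.2 ⟨mem_univ _, _, dif_pos ⟨h1, h3⟩, ?_⟩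
  simpa only [Fin.lt_def, Fin.ext_iff, ← hk] using h2

theorem cons {R : Fin m → Wd d L} {lab : T → Fin m} (hF : D.Fit R lab)
    (hr : ∀ f g, rk f = rk g → lab f = lab g) {s : ℕ} (F : Fin s → T) (hk : ∀ k, rk (F k) = k) :
    Cons R (fun k => lab (F k)) (pat D U rk F) := by
  intro k a v hv
  unfold pat val at hv
  split_ifs at hv with h
  obtain rfl := Option.some.inj hv
  have h1 := hF.le (F k, a)
  simp only [hr _ _ (hk ⟨_, h.2⟩)]
  revert h1
  generalize R (lab (D.al (F k, a)).1) (D.al (F k, a)).2 = u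
  generalize R (lab (F k)) a = w
  obtain ⟨u, b⟩ := u
  obtain ⟨w, c⟩ := w
  cases D.s (D.al (F k, a)).1 <;> cases D.s (F k) <;> cases b <;> cases c <;>
    simp [sg, iv, eq_comm]

end Det

open Det in
theorem detS : DetStmt := by
  intro T _ _ d L m R D lab U hd hF hU hK hb hB
  obtain ⟨ρ, hρ, ha⟩ := rank U lab
  have hm : 0 < m := Fin.pos (lab hU.choose)
  have hQ : 0 < QQ L := Nat.lt_add_right _ Nat.one_pos
  have hl : 0 < 2 * d - 1 := by omega
  have hG : 0 < 24 * m * QQ L := Nat.mul_pos (Nat.mul_pos (by norm_num) hm) hQ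
  have hZ : 0 < QQ L * (L + 1) := Nat.mul_pos hQ L.succ_pos
  unfold Bad at hB
  generalize 2 * d - 1 = l at hl hB ⊢
  generalize 24 * m * QQ L = G at hG hB ⊢
  generalize QQ L * (L + 1) = Z at hZ hB ⊢
  have l0 : 0 ≤ Real.log l := Real.log_natCast_nonneg l
  have Z0 : 0 ≤ Real.log Z := Real.log_natCast_nonneg Z
  have h1 := abl U (fun f => ρ (lab f)) (fun f => own D U (fun f => ρ (lab f)) f * Real.log l -
    D.ns f * Real.log Z - Real.log G) ha fun s F h => by
      have hj : Function.Injective fun k => lab (F k) := fun k k' e =>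
        Fin.ext (by rw [← (h k).2, ← (h k').2]; exact congrArg ρ e)
      have hs : s ≤ U.card := by
        have := card_le_card_of_injOn (s := univ) (t := U) F (fun k _ => (h k).1)
          fun k _ k' _ e => hj (congrArg lab e)
        rwa [card_univ, Fintype.card_fin] at this
      have h2 := not_lt.1 fun h2 => hB ⟨s, _, _, hs.trans hK, hj,
        cons D U (fun f => ρ (lab f)) hF (fun f g e => hρ e) F fun k => (h k).2, h2⟩
      rw [← lg_iff (by positivity) (by positivity)] at h2
      push_cast at h2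
      rw [Real.log_mul (by positivity) (by positivity), Real.log_pow, Real.log_pow,
        Real.log_pow] at h2
      push_cast at h2
      have h3 := mul_le_mul_of_nonneg_right (sum_le_sum fun k (_ : k ∈ univ) =>
        (Nat.cast_le (α := ℝ)).2 (own_le D U (fun f => ρ (lab f)) F k (h k).2)) l0
      have h4 := mul_le_mul_of_nonneg_right (sum_le_sum fun k (_ : k ∈ univ) =>
        (Nat.cast_le (α := ℝ)).2 (brk_le D U (fun f => ρ (lab f)) F k)) Z0
      rw [sum_sub_distrib, sum_sub_distrib, ← sum_mul, ← sum_mul, sum_const, card_univ,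
        Fintype.card_fin, nsmul_eq_mul]
      linarith
  have h2 := own_sum D U (fun f => ρ (lab f)) fun x e => hF.nm x ⟨hρ e.1, e.2⟩
  rw [sum_sub_distrib, sum_sub_distrib, ← sum_mul, ← sum_mul, sum_const, nsmul_eq_mul,
    ← Nat.cast_sum, ← Nat.cast_sum] at h1
  have hu : (0 : ℝ) < U.card := by exact_mod_cast hU.card_pos
  generalize ∑ f ∈ U, own D U (fun f => ρ (lab f)) f = o at h1 h2
  have h3 : (U.card : ℝ) * (L + 1) ≤ 23 * U.card + 2 * o := by
    exact_mod_cast (show U.card * (L + 1) ≤ 23 * U.card + 2 * o by omega)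
  have h4 : ((∑ f ∈ U, D.ns f : ℕ) : ℝ) ≤ 23 * U.card := by
    exact_mod_cast (show ∑ f ∈ U, D.ns f ≤ 23 * U.card by omega)
  rw [← lg_iff (by positivity) (by positivity)]
  push_cast
  rw [Real.log_mul (by positivity) (by positivity), Real.log_mul (by positivity) (by positivity),
    Real.log_pow, Real.log_pow, Real.log_pow, Real.log_pow]
  push_cast
  refine le_of_mul_le_mul_left ?_ hu
  have h5 := mul_le_mul_of_nonneg_right h3 l0
  have h6 := mul_le_mul_of_nonneg_right h4 Z0
  linarith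

end Pool.Agent.MP_0de6ea_al.RW
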