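import Mathlib.Analysis.SpecialFunctions.Sqrt
import Pool.Agent.MP_0de6ea_al.RW.Spec

/-! A small piece of the diagram with a short boundary. -/

namespace Pool.Agent.MP_0de6ea_al.RW

open Finset

namespace Fol

variable {T : Type} [Fintype T] [DecidableEq T] {L : ℕ} (D : Dg T L)

omit [DecidableEq T] in
theorem adj_symm (u v : T) (h : D.Adj u v) : D.Adj v u := by
  obtain ⟨a, rfl⟩ := h
  exact ⟨(D.al (u, a)).2, by rw [Prod.mk.eta, D.inv]⟩

theorem bd_univ : D.bd univ = 0 := by simp [Dg.bd]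

theorem bd_add {U U1 U2 : Finset T} (h1 : U1 ⊆ U) (h2 : U2 ⊆ U) (hd : Disjoint U1 U2)
    (hr : ∀ u ∈ U1, ∀ v ∈ U2, ¬ D.Adj u v) :
    D.bd U1 + D.bd U2 ≤ D.bd U + (U \ (U1 ∪ U2)).card * (L + 1) := by
  have hx : (univ.filter fun x : Dt T L => (D.al x).1 ∈ U \ (U1 ∪ U2)).card ≤
      (U \ (U1 ∪ U2)).card * (L + 1) := by
    have := card_le_card_of_injOn (s := univ.filter fun x : Dt T L => (D.al x).1 ∈ U \ (U1 ∪ U2))
      (t := (U \ (U1 ∪ U2)) ×ˢ (univ : Finset (Fin (L + 1)))) D.al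
      (fun x hx => by simpa using hx)
      (fun x _ y _ h => by rw [← D.inv x, h, D.inv])
    simpa using this
  unfold Dg.bd
  rw [← card_union_of_disjoint]
  · refine le_trans (card_le_card ?_) ((card_union_le _ _).trans (Nat.add_le_add_left hx _))
    intro x hx
    simp only [mem_union, mem_filter, mem_univ, true_and, mem_sdiff, not_or] at hx ⊢
    by_cases hU : (D.al x).1 ∈ U
    · right
      rcases hx with hx | hx
      · exact ⟨hU, hx.2, fun h => hr _ hx.1 _ h ⟨x.2, rfl⟩⟩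
      · exact ⟨hU, fun h => hr _ h _ hx.1 (adj_symm D _ _ ⟨x.2, rfl⟩), hx.2⟩
    · exact Or.inl ⟨hx.elim (fun h => h1 h.1) fun h => h2 h.1, hU⟩
  · rw [disjoint_filter]
    exact fun x _ h h' => disjoint_left.1 hd h.1 h'.1

theorem sq_le (n : ℕ) : (n + 1) ^ 2 + 2 ≤ 2 ^ (n + 2) := by
  induction n with
  | zero => norm_num
  | succ n ih => rw [pow_succ 2 (n + 2)]; nlinarith

/-- The fourth root. -/
noncomputable def q (u : ℕ) : ℝ := √(√(u : ℝ))

theorem q_nonneg (u : ℕ) : 0 ≤ q u := Real.sqrt_nonneg _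

theorem q_sq (u : ℕ) : q u ^ 2 = √(u : ℝ) := Real.sq_sqrt (Real.sqrt_nonneg _)

theorem q_four (u : ℕ) : q u ^ 4 = u := by
  rw [show q u ^ 4 = (q u ^ 2) ^ 2 by ring, q_sq, Real.sq_sqrt (Nat.cast_nonneg u)]

theorem le_q {A : ℝ} {u : ℕ} (h : A ^ 4 ≤ u) : A ≤ q u :=
  le_of_pow_le_pow_left₀ (n := 4) (by norm_num) (q_nonneg u) (by rwa [q_four])

theorem q_part {u v : ℕ} (h : 4 * v ≤ 3 * u) : (v : ℝ) ≤ q v ^ 3 * (15 / 16 * q u) := by
  have h1 : q v ≤ 15 / 16 * q u := by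
    refine le_of_pow_le_pow_left₀ (n := 4) (by norm_num) (by have := q_nonneg u; positivity) ?_
    have : (4 : ℝ) * v ≤ 3 * u := by exact_mod_cast h
    have h0 : (0 : ℝ) ≤ u := Nat.cast_nonneg u
    rw [mul_pow, q_four, q_four]
    linarith
  calc (v : ℝ) = q v ^ 3 * q v := by rw [← q_four v, show q (v : ℕ) ^ 4 = q v ^ 3 * q v by ring]
    _ ≤ _ := mul_le_mul_of_nonneg_left h1 (pow_nonneg (q_nonneg v) 3)

theorem x_le {u x : ℕ} (hs : 1 ≤ q u)
    (h : (⌊q u⌋₊ + 1) * x ≤ u + (⌊q u⌋₊ + 1) * (32 * (⌊q u⌋₊ + 1) * (u.sqrt + 2) + 36)) :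
    (x : ℝ) ≤ 300 * q u ^ 3 := by
  obtain ⟨l, hl⟩ : ∃ l : ℝ, l = (⌊q u⌋₊ : ℝ) + 1 := ⟨_, rfl⟩
  have h1 : q u ≤ l := hl ▸ (Nat.lt_floor_add_one _).le
  have h2 : l ≤ 2 * q u := by have := Nat.floor_le (q_nonneg u); linarith
  have h3 : (u.sqrt : ℝ) ≤ q u ^ 2 := by rw [q_sq]; exact Real.nat_sqrt_le_real_sqrt
  have h4 : l * x ≤ u + l * (32 * l * (u.sqrt + 2) + 36) := by rw [hl]; exact_mod_cast h
  have h5 : (1 : ℝ) ≤ q u ^ 2 := one_le_pow₀ hs
  have h6 : (1 : ℝ) ≤ q u ^ 3 := one_le_pow₀ hs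
  have h7 : l * (u.sqrt + 2) ≤ 2 * q u * (3 * q u ^ 2) :=
    mul_le_mul h2 (by linarith) (by positivity) (by linarith)
  have h8 : (u : ℝ) ≤ l * q u ^ 3 := by
    rw [← q_four u, show q u ^ 4 = q u * q u ^ 3 by ring]
    exact mul_le_mul_of_nonneg_right h1 (by linarith)
  refine le_of_mul_le_mul_left (a := l) (h4.trans ?_) (by linarith)
  have h9 : 32 * l * (u.sqrt + 2) + 36 ≤ 299 * q u ^ 3 := by nlinarith
  have := mul_le_mul_of_nonneg_left h9 (by linarith : 0 ≤ l)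
  linarith

theorem final {M s x c u : ℝ} (hM : 23 ≤ M) (hs : 9000 * M ≤ s) (hx : x ≤ 300 * s ^ 3)
    (hu : s ^ 4 = u) (h1 : u - x ≤ c * (15 / 16 * s))
    (h2 : 9000 * M * c < 9000 * M * s ^ 3 + M * x) : False := by
  have s0 : 0 < s := by linarith
  have h3 : 9000 * c < 9000 * s ^ 3 + x :=
    lt_of_mul_lt_mul_left (a := M) (by linarith) (by linarith)
  have h4 := mul_lt_mul_of_pos_right h3 s0
  have h5 := mul_le_mul_of_nonneg_right hx s0.le
  have h6 : 0 < s ^ 3 := by positivity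
  have h7 := mul_le_mul_of_nonneg_right (by linarith : (9600 : ℝ) ≤ s) h6.le
  nlinarith

end Fol

open Fol in
theorem folS (h1 : K5Stmt) (h2 : SepStmt) : FolStmt := by
  intro T _ _ _ L D hD
  by_cases ht : Fintype.card T ≤ KK L
  · refine ⟨univ, univ_nonempty, ht, ?_⟩
    rw [bd_univ, card_univ]
    omega
  obtain ⟨M, hM⟩ : ∃ M : ℝ, M = L + 23 := ⟨_, rfl⟩
  have hM0 : 23 ≤ M := by have : (0 : ℝ) ≤ L := Nat.cast_nonneg L; linarith
  have hK : (KK L : ℝ) = 5 * (9000 * M) ^ 4 := by rw [hM, KK]; push_cast; rfl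
  have hA : 0 < (9000 * M) ^ 4 := by positivity
  obtain ⟨Φ, hΦ⟩ : ∃ Φ : Finset T → ℝ, ∀ U, Φ U = D.bd U + (∑ f ∈ U, D.ns f : ℕ) - 22 * U.card :=
    ⟨_, fun _ => rfl⟩
  classical
  obtain ⟨U, hU, hmin⟩ := exists_min_image (univ.filter fun U : Finset T =>
    (9000 * M) ^ 4 ≤ U.card ∧ Φ U ≤ 9000 * M * q U.card ^ 3) card ⟨univ, by
      have a1 : (KK L : ℝ) ≤ Fintype.card T := by exact_mod_cast (not_le.1 ht).le
      have a2 : ((∑ f, D.ns f : ℕ) : ℝ) ≤ 22 * Fintype.card T := by exact_mod_cast hD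
      have a3 : 0 ≤ 9000 * M * q (Fintype.card T) ^ 3 := by
        have := q_nonneg (Fintype.card T); positivity
      simp only [mem_filter, mem_univ, true_and, card_univ, hΦ, bd_univ]
      constructor <;> push_cast at a2 ⊢ <;> linarith⟩
  simp only [mem_filter, mem_univ, true_and] at hU hmin
  have hs := le_q hU.1
  have h4 := q_four U.card
  have h0 : 0 < U.card := by exact_mod_cast hA.trans_le hU.1
  by_cases hu : U.card ≤ KK L
  · refine ⟨U, card_pos.1 h0, hu, ?_⟩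
    have a1 := mul_le_mul_of_nonneg_right hs (pow_nonneg (q_nonneg U.card) 3)
    have a2 : (D.bd U : ℝ) + (∑ f ∈ U, D.ns f : ℕ) ≤ 23 * U.card := by
      have := hU.2
      rw [hΦ] at this
      nlinarith
    exact_mod_cast a2
  exfalso
  have hu' : 5 * (9000 * M) ^ 4 ≤ U.card := by rw [← hK]; exact_mod_cast (not_le.1 hu).le
  obtain ⟨U1, U2, s1, s2, hd, hr, c1, c2, hx⟩ := h2 T D.Adj (adj_symm D) (h1 T L D) U
    (⌊q U.card⌋₊ + 1) (U.card.sqrt + 2) (by omega)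
    (by
      have a : U.card < (U.card.sqrt + 1) ^ 2 := Nat.lt_succ_sqrt' U.card
      have b := sq_le U.card.sqrt
      exact lt_of_lt_of_le a (by omega))
  have x1 := x_le (by linarith) hx
  have hb : (D.bd U1 : ℝ) + D.bd U2 ≤ D.bd U + (U \ (U1 ∪ U2)).card * (L + 1) := by
    exact_mod_cast bd_add D s1 s2 hd hr
  have hc : ((U \ (U1 ∪ U2)).card : ℝ) + (U1.card + U2.card) = U.card := by
    have := card_sdiff_add_card_eq_card (union_subset s1 s2)
    rw [card_union_of_disjoint hd] at this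
    exact_mod_cast this
  have hn : ((∑ f ∈ U1, D.ns f : ℕ) : ℝ) + (∑ f ∈ U2, D.ns f : ℕ) ≤ (∑ f ∈ U, D.ns f : ℕ) := by
    have := sum_le_sum_of_subset (f := D.ns) (union_subset s1 s2)
    rw [sum_union hd] at this
    exact_mod_cast this
  have x2 : 20 * (300 * q U.card ^ 3) ≤ U.card := by
    have := mul_le_mul_of_nonneg_right (by linarith : (6000 : ℝ) ≤ q U.card)
      (pow_nonneg (q_nonneg U.card) 3)
    nlinarith
  have d1 : (4 : ℝ) * U1.card ≤ 3 * U.card := by exact_mod_cast c1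
  have d2 : (4 : ℝ) * U2.card ≤ 3 * U.card := by exact_mod_cast c2
  have m1 : 9000 * M * q U1.card ^ 3 < Φ U1 := not_le.1 fun h => by
    have := hmin U1 ⟨by linarith, h⟩; omega
  have m2 : 9000 * M * q U2.card ^ 3 < Φ U2 := not_le.1 fun h => by
    have := hmin U2 ⟨by linarith, h⟩; omega
  have p1 := q_part c1
  have p2 := q_part c2
  refine final (c := q U1.card ^ 3 + q U2.card ^ 3) hM0 hs x1 h4 (by linarith) ?_
  have := hU.2
  rw [hΦ] at m1 m2 this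
  rw [hM] at *
  nlinarith

end Pool.Agent.MP_0de6ea_al.RW
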