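import Pool.Agent.MP_0de6ea_al.RW.Spec
import Mathlib.Data.ZMod.Basic
import Mathlib.Tactic.LinearCombination
import Mathlib.Tactic.ReduceModChar

/-! The face graph of a spherical diagram has no complete minor on five vertices. -/

namespace Pool.Agent.MP_0de6ea_al.RW

namespace K5

variable {T : Type} [Fintype T] {L : ℕ} (D : Dg T L)

/-- The order of two darts. -/
def B (x y : Dt T L) : ZMod 2 := if D.pos x < D.pos y then 1 else 0

/-- Whether two chords interlace. -/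
def I (x x' y y' : Dt T L) : ZMod 2 := B D x y + B D x y' + B D x' y + B D x' y'

theorem h2 : (2 : ZMod 2) = 0 := rfl

theorem pne {x y : Dt T L} (h : x.1 ≠ y.1) : D.pos x ≠ D.pos y :=
  fun e => h (congrArg Prod.fst (D.inj e))

theorem B_add {x y : Dt T L} (h : x.1 ≠ y.1) : B D x y + B D y x = 1 := by
  have := pne D h
  unfold B
  split_ifs <;> first | rfl | omega

theorem I_zero {x x' y y' : Dt T L} (h1 : x.1 ≠ y.1) (h2 : x.1 ≠ y'.1) (h3 : x'.1 ≠ y.1)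
    (h4 : x'.1 ≠ y'.1)
    (c1 : D.pos x < D.pos y → D.pos y < D.pos x' → D.pos x' < D.pos y' → False)
    (c2 : D.pos x < D.pos y' → D.pos y' < D.pos x' → D.pos x' < D.pos y → False)
    (c3 : D.pos x' < D.pos y → D.pos y < D.pos x → D.pos x < D.pos y' → False)
    (c4 : D.pos x' < D.pos y' → D.pos y' < D.pos x → D.pos x < D.pos y → False)
    (c5 : D.pos y < D.pos x → D.pos x < D.pos y' → D.pos y' < D.pos x' → False)
    (c6 : D.pos y < D.pos x' → D.pos x' < D.pos y' → D.pos y' < D.pos x → False)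
    (c7 : D.pos y' < D.pos x → D.pos x < D.pos y → D.pos y < D.pos x' → False)
    (c8 : D.pos y' < D.pos x' → D.pos x' < D.pos y → D.pos y < D.pos x → False) :
    I D x x' y y' = 0 := by
  have e1 := pne D h1
  have e2 := pne D h2
  have e3 := pne D h3
  have e4 := pne D h4
  simp only [imp_false, ← not_and] at c1 c2 c3 c4 c5 c6 c7 c8
  unfold I B
  split_ifs <;> first | rfl | (exfalso; omega)

theorem I_in {x y : Dt T L} (h1 : x.1 ≠ y.1) (h2 : x.1 ≠ (D.al y).1) (h3 : (D.al x).1 ≠ y.1)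
    (h4 : (D.al x).1 ≠ (D.al y).1) : I D x (D.al x) y (D.al y) = 0 := by
  refine I_zero D h1 h2 h3 h4 (D.nc x y) ?_ ?_ ?_ (D.nc y x) ?_ ?_ ?_
  · simpa only [D.inv] using D.nc x (D.al y)
  · simpa only [D.inv] using D.nc (D.al x) y
  · simpa only [D.inv] using D.nc (D.al x) (D.al y)
  · simpa only [D.inv] using D.nc y (D.al x)
  · simpa only [D.inv] using D.nc (D.al y) x
  · simpa only [D.inv] using D.nc (D.al y) (D.al x)

theorem I_out {x x' y y' : Dt T L} (hx : x.1 = x'.1) (hy : y.1 = y'.1) (h : x.1 ≠ y.1) :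
    I D x x' y y' = 0 :=
  I_zero D h (hy ▸ h) (hx ▸ h) (hx ▸ hy ▸ h) (D.nf x x' y y' hx hy h)
    (D.nf x x' y' y hx hy.symm (hy ▸ h)) (D.nf x' x y y' hx.symm hy (hx ▸ h))
    (D.nf x' x y' y hx.symm hy.symm (hx ▸ hy ▸ h)) (D.nf y y' x x' hy hx h.symm)
    (D.nf y y' x' x hy hx.symm (hx ▸ h.symm)) (D.nf y' y x x' hy.symm hx (hy ▸ h.symm))
    (D.nf y' y x' x hy.symm hx.symm (hx ▸ hy ▸ h.symm))

theorem three (a : Dt T L) {b c d : Dt T L} (bc : b.1 ≠ c.1) (bd : b.1 ≠ d.1) (cd : c.1 ≠ d.1) :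
    I D a b c d + I D a c b d + I D a d b c = 1 := by
  unfold I
  linear_combination B_add D bc + B_add D bd + B_add D cd +
    (B D a b + B D a c + B D a d + 1) * h2

/-- The outer part of a path from `a` to `b` through the faces in `Z`. -/
def Gd (a b : Dt T L) (Z : Set T) (φ : Dt T L → ZMod 2) : Prop :=
  (∀ y y' : Dt T L, y.1 = y'.1 → y.1 ∉ Z → φ y = φ y') ∧
    ∀ y : Dt T L, y.1 ∉ Z → (D.al y).1 ∉ Z → φ y + φ (D.al y) = I D a b y (D.al y)

/-- The same, with the formula for the crossing number. -/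
def Pt (c d : Dt T L) (Z : Set T) (ψ : Dt T L → ZMod 2) : Prop :=
  Gd D c d Z ψ ∧ ∀ a b Z' φ, Gd D a b Z' φ → (∀ f ∈ Z, f ∉ Z') → a.1 ∉ Z → b.1 ∉ Z →
    I D a b c d = φ c + φ d + ψ a + ψ b

theorem pt_refl (c : Dt T L) (Z : Set T) : Pt D c c Z fun _ => 0 := by
  refine ⟨⟨fun _ _ _ _ => rfl, fun y _ _ => ?_⟩, fun a b Z' φ _ _ _ _ => ?_⟩
  · unfold I
    linear_combination (-B D c y - B D c (D.al y)) * h2
  · unfold I
    linear_combination (B D a c + B D b c - φ c) * h2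

theorem pt_out {c d d' : Dt T L} {Z : Set T} {ψ : Dt T L → ZMod 2} (h : Pt D c d Z ψ)
    (e : d.1 = d'.1) (hd : d.1 ∈ Z) : Pt D c d' Z fun y => ψ y + B D d y + B D d' y := by
  have ne : ∀ y : Dt T L, y.1 ∉ Z → d.1 ≠ y.1 := fun y hy q => hy (q ▸ hd)
  refine ⟨⟨fun y y' q hy => ?_, fun y h1 h3 => ?_⟩, fun a b Z' φ g dj ha hb => ?_⟩
  · have := I_out D e q (ne y hy)
    unfold I at this
    linear_combination h.1.1 y y' q hy + this - (B D d y' + B D d' y') * h2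
  · have := h.1.2 y h1 h3
    unfold I at this ⊢
    linear_combination this + (B D d y + B D d (D.al y)) * h2
  · have e1 := h.2 a b Z' φ g dj ha hb
    have e2 := g.1 d d' e (dj _ hd)
    unfold I at e1 ⊢
    linear_combination e1 + e2 + B_add D (ne a ha) + B_add D (ne b hb) +
      B_add D (e ▸ ne a ha : d'.1 ≠ a.1) + B_add D (e ▸ ne b hb : d'.1 ≠ b.1) +
      (2 - B D a d - B D b d - B D d a - B D d b - B D d' a - B D d' b) * h2

theorem pt_in {c d : Dt T L} {Z : Set T} {ψ : Dt T L → ZMod 2} (h : Pt D c d Z ψ)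
    (hd : d.1 ∈ Z) (hd' : (D.al d).1 ∈ Z) : Pt D c (D.al d) Z ψ := by
  refine ⟨⟨h.1.1, fun y h1 h3 => ?_⟩, fun a b Z' φ g dj ha hb => ?_⟩
  · have e1 := h.1.2 y h1 h3
    have e2 := I_in D (x := d) (y := y) (fun q => h1 (q ▸ hd)) (fun q => h3 (q ▸ hd))
      (fun q => h1 (q ▸ hd')) (fun q => h3 (q ▸ hd'))
    unfold I at e1 e2 ⊢
    linear_combination e1 - e2 + (B D d y + B D d (D.al y)) * h2
  · have e1 := h.2 a b Z' φ g dj ha hb
    have e2 := g.2 d (dj _ hd) (dj _ hd')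
    unfold I at e1 e2 ⊢
    linear_combination e1 - e2 + (φ d - B D a d - B D b d) * h2

theorem walk {Z : Set T} {c : Dt T L} (hc : c.1 ∈ Z) {v : T}
    (h : Relation.ReflTransGen (fun u v => D.Adj u v ∧ u ∈ Z ∧ v ∈ Z) c.1 v) :
    ∀ d : Dt T L, d.1 = v → ∃ ψ, Pt D c d Z ψ := by
  induction h with
  | refl => exact fun d e => ⟨_, pt_out D (pt_refl D c Z) e.symm hc⟩
  | @tail u w _ h ih =>
    intro d e
    obtain ⟨⟨a, ha⟩, hu, hw⟩ := h
    obtain ⟨ψ, hψ⟩ := ih (u, a) rfl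
    exact ⟨_, pt_out D (pt_in D hψ hu (ha ▸ hw)) (ha.trans e.symm) (ha ▸ hw)⟩

end K5

open K5 in
theorem k5S : K5Stmt := by
  intro T _ _ L D C hc hd ha
  have hne : ∀ i, ∃ u, u ∈ C i := fun i => by
    obtain ⟨j, hj⟩ := exists_ne i
    obtain ⟨u, hu, -⟩ := ha i j hj.symm
    exact ⟨u, hu⟩
  choose u hu using hne
  have nm : ∀ i j, i ≠ j → ∀ f ∈ C i, f ∉ C j := fun i j h _ q =>
    Finset.disjoint_left.1 (hd i j h) q
  have ne : ∀ i j, i ≠ j → u i ≠ u j := fun i j h e => nm i j h _ (hu i) (e ▸ hu j)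
  have hp : ∀ i j, ∃ ψ, i ≠ j →
      Pt D (u i, 0) (u j, 0) {f | f ∈ C i ∨ f ∈ C j} ψ := fun i j => by
    by_cases h : i = j
    · exact ⟨fun _ => 0, fun q => absurd h q⟩
    obtain ⟨x, hx, y, hy, xy⟩ := ha i j h
    obtain ⟨ψ, hψ⟩ := walk D (Z := {f | f ∈ C i ∨ f ∈ C j}) (c := (u i, 0)) (Or.inl (hu i))
      (v := u j) (((Relation.ReflTransGen.mono (fun _ _ q => ⟨q.1, Or.inl q.2.1, Or.inl q.2.2⟩)
        _ _ (hc i _ (hu i) _ hx)).tail ⟨xy, Or.inl hx, Or.inr hy⟩).trans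
        (Relation.ReflTransGen.mono (fun _ _ q => ⟨q.1, Or.inr q.2.1, Or.inr q.2.2⟩)
        _ _ (hc j _ hy _ (hu j)))) (u j, 0) rfl
    exact ⟨ψ, fun _ => hψ⟩
  choose ψ hψ using hp
  have E : ∀ i j k l, i ≠ j ∧ k ≠ l ∧ i ≠ k ∧ i ≠ l ∧ j ≠ k ∧ j ≠ l →
      I D (u i, 0) (u j, 0) (u k, 0) (u l, 0) =
        ψ i j (u k, 0) + ψ i j (u l, 0) + ψ k l (u i, 0) + ψ k l (u j, 0) := by
    rintro i j k l ⟨ij, kl, ik, il, jk, jl⟩
    refine (hψ k l kl).2 _ _ _ _ (hψ i j ij).1 ?_ ?_ ?_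
    · rintro f (h | h) (h' | h')
      exacts [nm i k ik f h' h, nm j k jk f h' h, nm i l il f h' h, nm j l jl f h' h]
    · rintro (h | h)
      exacts [nm i k ik _ (hu i) h, nm i l il _ (hu i) h]
    · rintro (h | h)
      exacts [nm j k jk _ (hu j) h, nm j l jl _ (hu j) h]
  have F : ∀ i j k l, i ≠ j ∧ k ≠ l ∧ i ≠ k ∧ i ≠ l ∧ j ≠ k ∧ j ≠ l →
      ψ i j (u k, 0) + ψ i j (u l, 0) + ψ k l (u i, 0) + ψ k l (u j, 0) +
      (ψ i k (u j, 0) + ψ i k (u l, 0) + ψ j l (u i, 0) + ψ j l (u k, 0)) +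
      (ψ i l (u j, 0) + ψ i l (u k, 0) + ψ j k (u i, 0) + ψ j k (u l, 0)) = 1 := by
    rintro i j k l ⟨ij, kl, ik, il, jk, jl⟩
    rw [← E i j k l ⟨ij, kl, ik, il, jk, jl⟩, ← E i k j l ⟨ik, jl, ij, il, jk.symm, kl⟩,
      ← E i l j k ⟨il, jk, ij, ik, jl.symm, kl.symm⟩]
    exact three D _ (ne _ _ jk) (ne _ _ jl) (ne _ _ kl)
  have : (1 : ZMod 2) = 0 := by
    linear_combination (norm := (ring_nf; reduce_mod_char)) F 0 1 2 3 (by decide) +
      F 0 1 2 4 (by decide) + F 0 1 3 4 (by decide) + F 0 2 3 4 (by decide) +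
      F 1 2 3 4 (by decide)
  exact one_ne_zero this

end Pool.Agent.MP_0de6ea_al.RW
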