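import Pool.Agent.MP_0de6ea_al.RW.Spec

/-! Separators in graphs without a minor isomorphic to the complete graph on five vertices. -/

namespace Pool.Agent.MP_0de6ea_al.RW

open Finset

namespace Sep

variable {T : Type} [DecidableEq T] {r : T → T → Prop}

omit [DecidableEq T] in
theorem conn_one (v : T) : Conn r {v} := fun x hx y hy => by
  rw [mem_singleton.1 hx, mem_singleton.1 hy]

omit [DecidableEq T] in
theorem lift {A B : Finset T} (h : A ⊆ B) {x y : T}
    (p : Relation.ReflTransGen (fun u v => r u v ∧ u ∈ A ∧ v ∈ A) x y) :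
    Relation.ReflTransGen (fun u v => r u v ∧ u ∈ B ∧ v ∈ B) x y := by
  induction p with
  | refl => rfl
  | tail _ e ih => exact ih.tail ⟨e.1, h e.2.1, h e.2.2⟩

theorem conn_union {A B : Finset T} (ha : Conn r A) (hb : Conn r B) {z : T} (za : z ∈ A)
    (zb : z ∈ B) : Conn r (A ∪ B) := fun x hx y hy => by
  have h1 : Relation.ReflTransGen (fun u v => r u v ∧ u ∈ A ∪ B ∧ v ∈ A ∪ B) x z := by
    rcases mem_union.1 hx with h | h
    · exact lift subset_union_left (ha x h z za)
    · exact lift subset_union_right (hb x h z zb)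
  refine h1.trans ?_
  rcases mem_union.1 hy with h | h
  · exact lift subset_union_left (ha z za y h)
  · exact lift subset_union_right (hb z zb y h)

theorem conn_two (hs : ∀ u v, r u v → r v u) {x y : T} (h : r x y) : Conn r {x, y} := by
  intro a ha b hb
  simp only [mem_insert, mem_singleton] at ha hb
  rcases ha with rfl | rfl <;> rcases hb with rfl | rfl
  · rfl
  · exact .single ⟨h, by simp, by simp⟩
  · exact .single ⟨hs _ _ h, by simp, by simp⟩
  · rfl

open Classical in
/-- Balls inside `H`. -/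
noncomputable def ball (r : T → T → Prop) (H : Finset T) (v : T) : ℕ → Finset T
  | 0 => {v}
  | n + 1 => ball r H v n ∪ H.filter fun x => ∃ y ∈ ball r H v n, r y x

variable {H : Finset T} {v : T}

theorem mem_succ {n : ℕ} {x : T} : x ∈ ball r H v (n + 1) ↔
    x ∈ ball r H v n ∨ x ∈ H ∧ ∃ y ∈ ball r H v n, r y x := by
  simp only [ball, mem_union, mem_filter]

theorem ball_step (n : ℕ) : ball r H v n ⊆ ball r H v (n + 1) := fun _ h => mem_succ.2 (.inl h)

theorem ball_mono {n m : ℕ} (h : n ≤ m) : ball r H v n ⊆ ball r H v m :=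
  monotone_nat_of_le_succ (f := ball r H v) ball_step h

theorem ball_self (n : ℕ) : v ∈ ball r H v n := ball_mono (Nat.zero_le n) (mem_singleton_self v)

theorem ball_sub (hv : v ∈ H) (n : ℕ) : ball r H v n ⊆ H := by
  induction n with
  | zero => exact singleton_subset_iff.2 hv
  | succ n ih => exact fun x hx => (mem_succ.1 hx).elim (fun h => ih h) And.left

theorem ball_conn (hs : ∀ u v, r u v → r v u) (hv : v ∈ H) (n : ℕ) : ∀ x ∈ ball r H v n,
    ∃ C ⊆ H, v ∈ C ∧ x ∈ C ∧ Conn r C ∧ C.card ≤ n + 1 := by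
  induction n with
  | zero =>
    intro x hx
    exact ⟨{v}, singleton_subset_iff.2 hv, mem_singleton_self v, hx, conn_one v, by simp⟩
  | succ n ih =>
    intro x hx
    rcases mem_succ.1 hx with h | ⟨h, y, hy, e⟩
    · obtain ⟨C, h1, h2, h3, h4, h5⟩ := ih x h
      exact ⟨C, h1, h2, h3, h4, by omega⟩
    · obtain ⟨C, h1, h2, h3, h4, h5⟩ := ih y hy
      have e' : C ∪ {y, x} = insert x C := by
        ext z
        simp only [mem_union, mem_insert, mem_singleton]
        constructor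
        · rintro (a | rfl | a)
          exacts [.inr a, .inr h3, .inl a]
        · rintro (a | a)
          exacts [.inr (.inr a), .inl a]
      refine ⟨insert x C, insert_subset h h1, mem_insert_of_mem h2, mem_insert_self _ _, ?_,
        (card_insert_le _ _).trans (by omega)⟩
      rw [← e']
      exact conn_union h4 (conn_two hs e) h3 (by simp)

/-- Balls grow quickly when no layer is thin. -/
theorem ball_big {l k : ℕ} (hl : 1 ≤ l) (hv : v ∈ H) (hk : H.card < 2 ^ k)
    (h : ∀ n, 2 * (ball r H v n).card ≤ H.card →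
      (ball r H v n).card < l * (ball r H v (n + 1) \ ball r H v n).card) :
    H.card < 2 * (ball r H v (l * k)).card := by
  by_contra hc
  have h1 : ∀ n j, n + j ≤ l * k →
      (l + j) * (ball r H v n).card ≤ l * (ball r H v (n + j)).card := by
    intro n j
    induction j with
    | zero => exact fun _ => le_rfl
    | succ j ih =>
      intro hj
      have a1 := ih (by omega)
      have a2 := card_le_card (ball_mono (r := r) (H := H) (v := v) (show n + j ≤ l * k by omega))
      have a3 := h (n + j) (by omega)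
      have a4 := card_sdiff_add_card_eq_card (ball_step (r := r) (H := H) (v := v) (n + j))
      have a5 := card_le_card (ball_mono (r := r) (H := H) (v := v) (Nat.le_add_right n j))
      rw [← add_assoc n, ← a4]
      nlinarith
  have h2 : ∀ i, i ≤ k → 2 ^ i ≤ (ball r H v (l * i)).card := by
    intro i
    induction i with
    | zero => exact fun _ => by simp [ball]
    | succ i ih =>
      intro hi
      have a1 := ih (by omega)
      have a2 := h1 (l * i) l (by rw [← Nat.mul_succ]; exact Nat.mul_le_mul_left l hi)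
      rw [Nat.mul_succ, pow_succ]
      exact Nat.le_of_mul_le_mul_left (by nlinarith) hl
  have := (h2 k le_rfl).trans (card_le_card (ball_sub hv _))
  omega

/-- A small connected set that touches every member of a family. -/
theorem join {c : ℕ} (hv : v ∈ H)
    (h : ∀ w ∈ H, ∃ C ⊆ H, v ∈ C ∧ w ∈ C ∧ Conn r C ∧ C.card ≤ c) (F : Finset (Finset T)) :
    (∀ B ∈ F, ∃ x ∈ B, ∃ w ∈ H, r x w) → ∃ N ⊆ H, v ∈ N ∧ Conn r N ∧ N.card ≤ 1 + c * F.card ∧
      ∀ B ∈ F, ∃ x ∈ B, ∃ w ∈ N, r x w := by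
  induction F using Finset.induction_on with
  | empty =>
    exact fun _ => ⟨{v}, singleton_subset_iff.2 hv, mem_singleton_self v, conn_one v, by simp,
      by simp⟩
  | insert B F hB ih =>
    intro hF
    obtain ⟨N, h1, h2, h3, h4, h5⟩ := ih fun B' hB' => hF B' (mem_insert_of_mem hB')
    obtain ⟨x, hx, w, hw, e⟩ := hF B (mem_insert_self _ _)
    obtain ⟨C, g1, g2, g3, g4, g5⟩ := h w hw
    refine ⟨N ∪ C, union_subset h1 g1, mem_union_left _ h2, conn_union h3 g4 h2 g2, ?_, ?_⟩
    · have := card_union_le N C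
      rw [card_insert_of_notMem hB, mul_add]
      omega
    · intro B' hB'
      rcases mem_insert.1 hB' with rfl | hB'
      · exact ⟨x, hx, w, mem_union_right _ g3, e⟩
      · obtain ⟨x', hx', w', hw', e'⟩ := h5 B' hB'
        exact ⟨x', hx', w', mem_union_left _ hw', e'⟩

/-- The state of the procedure. -/
structure St (r : T → T → Prop) (U : Finset T) (l M : ℕ) (H R : Finset T)
    (F : Finset (Finset T)) : Prop where
  hu : H ⊆ U
  ru : R ⊆ U
  dj : Disjoint H R
  ne : ∀ u ∈ H, ∀ v ∈ R, ¬ r u v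
  r3 : 4 * R.card ≤ 3 * U.card
  f4 : F.card ≤ 4
  fb : ∀ B ∈ F, B ⊆ U ∧ Disjoint B H ∧ Disjoint B R ∧ Conn r B ∧ B.card ≤ M
  pw : ∀ B ∈ F, ∀ B' ∈ F, B ≠ B' → Disjoint B B' ∧ ∃ u ∈ B, ∃ v ∈ B', r u v
  ct : l * (U \ (H ∪ R)).card ≤ R.card + l * ∑ B ∈ F, B.card

variable {U R : Finset T} {F : Finset (Finset T)} {l k M : ℕ}

theorem stepA (hs : ∀ u v, r u v → r v u) (s : St r U l M H R F) (hb : 3 * U.card < 4 * H.card)
    {B : Finset T} (hB : B ∈ F) (h : ∀ x ∈ B, ∀ w ∈ H, ¬ r x w) :
    St r U l M H (R ∪ B) (F.erase B) := by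
  obtain ⟨b1, b2, b3, -, -⟩ := s.fb B hB
  have d1 : Disjoint H (R ∪ B) := disjoint_union_right.2 ⟨s.dj, b2.symm⟩
  have c1 := card_le_card (union_subset s.hu (union_subset s.ru b1))
  rw [card_union_of_disjoint d1] at c1
  refine ⟨s.hu, union_subset s.ru b1, d1, fun u hu v hv e => ?_, by omega,
    (card_erase_le).trans s.f4, fun B' hB' => ?_,
    fun B1 h1 B2 h2 => s.pw B1 (mem_of_mem_erase h1) B2 (mem_of_mem_erase h2), ?_⟩
  · rcases mem_union.1 hv with a | a
    exacts [s.ne u hu v a e, h v a u hu (hs _ _ e)]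
  · obtain ⟨n, m⟩ := mem_erase.1 hB'
    obtain ⟨a1, a2, a3, a4, a5⟩ := s.fb B' m
    exact ⟨a1, a2, disjoint_union_right.2 ⟨a3, (s.pw B' m B hB n).1⟩, a4, a5⟩
  · have e1 : U \ (H ∪ (R ∪ B)) = (U \ (H ∪ R)) \ B := by
      rw [← union_assoc, sdiff_sdiff_left, sup_eq_union]
    have e2 : B ⊆ U \ (H ∪ R) := subset_sdiff.2 ⟨b1, disjoint_union_right.2 ⟨b2, b3⟩⟩
    have e3 := card_sdiff_add_card_eq_card e2
    have e4 := add_sum_erase F card hB
    have e5 := s.ct
    have e6 := card_le_card (subset_union_left : R ⊆ R ∪ B)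
    rw [← e3, ← e4, mul_add, mul_add] at e5
    rw [e1]
    omega

theorem stepB (hs : ∀ u v, r u v → r v u) (s : St r U l M H R F) (hb : 3 * U.card < 4 * H.card)
    (hv : v ∈ H) {n : ℕ} (h1 : 2 * (ball r H v n).card ≤ H.card)
    (h2 : l * (ball r H v (n + 1) \ ball r H v n).card ≤ (ball r H v n).card) :
    St r U l M (H \ ball r H v (n + 1)) (R ∪ ball r H v n) F := by
  have b1 := ball_sub (r := r) hv n
  have d1 : Disjoint R (ball r H v n) := (s.dj.mono_left b1).symm
  have c1 := card_le_card (union_subset s.hu s.ru)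
  rw [card_union_of_disjoint s.dj] at c1
  refine ⟨sdiff_subset.trans s.hu, union_subset s.ru (b1.trans s.hu),
    disjoint_union_right.2 ⟨s.dj.mono_left sdiff_subset,
      sdiff_disjoint.mono_right (ball_step n)⟩, fun u hu w hw e => ?_,
    by rw [card_union_of_disjoint d1]; omega, s.f4, fun B hB => ?_, s.pw, ?_⟩
  · obtain ⟨a1, a2⟩ := mem_sdiff.1 hu
    rcases mem_union.1 hw with a | a
    exacts [s.ne u a1 w a e, a2 (mem_succ.2 (.inr ⟨a1, w, a, hs _ _ e⟩))]
  · obtain ⟨a1, a2, a3, a4, a5⟩ := s.fb B hB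
    exact ⟨a1, a2.mono_right sdiff_subset, disjoint_union_right.2 ⟨a3, a2.mono_right b1⟩, a4, a5⟩
  · have e1 : U \ (H \ ball r H v (n + 1) ∪ (R ∪ ball r H v n)) ⊆
        U \ (H ∪ R) ∪ ball r H v (n + 1) \ ball r H v n := by
      intro x
      simp only [mem_sdiff, mem_union]
      tauto
    have e2 := Nat.mul_le_mul_left l ((card_le_card e1).trans (card_union_le _ _))
    have e3 := s.ct
    rw [mul_add] at e2
    rw [card_union_of_disjoint d1]
    omega

theorem stepC (hs : ∀ u v, r u v → r v u) (h5 : NoK5 r) (s : St r U l M H R F) {N : Finset T}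
    (n1 : N ⊆ H) (n2 : v ∈ N) (n3 : Conn r N) (n4 : N.card ≤ M)
    (n5 : ∀ B ∈ F, ∃ x ∈ B, ∃ w ∈ N, r x w) : St r U l M (H \ N) R (insert N F) := by
  have hN : N ∉ F := fun h => disjoint_left.1 (s.fb N h).2.1 n2 (n1 n2)
  have fb : ∀ B ∈ insert N F, B ⊆ U ∧ Disjoint B (H \ N) ∧ Disjoint B R ∧ Conn r B ∧
      B.card ≤ M := by
    intro B hB
    rcases mem_insert.1 hB with rfl | hB
    · exact ⟨n1.trans s.hu, disjoint_sdiff, s.dj.mono_left n1, n3, n4⟩
    · obtain ⟨a1, a2, a3, a4, a5⟩ := s.fb B hB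
      exact ⟨a1, a2.mono_right sdiff_subset, a3, a4, a5⟩
  have pw : ∀ B ∈ insert N F, ∀ B' ∈ insert N F, B ≠ B' →
      Disjoint B B' ∧ ∃ u ∈ B, ∃ v ∈ B', r u v := by
    intro B hB B' hB' ne
    rcases mem_insert.1 hB with rfl | h1 <;> rcases mem_insert.1 hB' with e | h2
    · exact absurd e.symm ne
    · obtain ⟨x, hx, w, hw, e⟩ := n5 B' h2
      exact ⟨((s.fb B' h2).2.1.mono_right n1).symm, w, hw, x, hx, hs _ _ e⟩
    · rw [e]
      exact ⟨(s.fb B h1).2.1.mono_right n1, n5 B h1⟩
    · exact s.pw B h1 B' h2 ne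
  have f4 : (insert N F).card ≤ 4 := by
    by_contra hc
    have c5 : (insert N F).card = 5 := by
      have := s.f4
      rw [card_insert_of_notMem hN] at hc ⊢
      omega
    let e := (equivFinOfCardEq c5).symm
    have ne : ∀ i j, i ≠ j → (e i).1 ≠ (e j).1 := fun i j h a => h (e.injective (Subtype.ext a))
    exact h5 (fun i => (e i).1) (fun i => (fb _ (e i).2).2.2.2.1)
      (fun i j h => (pw _ (e i).2 _ (e j).2 (ne i j h)).1)
      fun i j h => (pw _ (e i).2 _ (e j).2 (ne i j h)).2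
  refine ⟨sdiff_subset.trans s.hu, s.ru, s.dj.mono_left sdiff_subset,
    fun u hu => s.ne u (mem_sdiff.1 hu).1, s.r3, f4, fb, pw, ?_⟩
  have e1 : U \ (H \ N ∪ R) ⊆ U \ (H ∪ R) ∪ N := by
    intro x
    simp only [mem_sdiff, mem_union]
    tauto
  have e2 := Nat.mul_le_mul_left l ((card_le_card e1).trans (card_union_le _ _))
  have e3 := s.ct
  rw [mul_add] at e2
  rw [sum_insert hN, mul_add]
  omega

theorem step (hs : ∀ u v, r u v → r v u) (h5 : NoK5 r) (hl : 1 ≤ l) (hk : U.card < 2 ^ k)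
    (s : St r U l (8 * l * k + 9) H R F) (hb : 3 * U.card < 4 * H.card) :
    ∃ H' R' F', St r U l (8 * l * k + 9) H' R' F' ∧
      2 * H'.card + F'.card < 2 * H.card + F.card := by
  by_cases ha : ∃ B ∈ F, ∀ x ∈ B, ∀ w ∈ H, ¬ r x w
  · obtain ⟨B, hB, h⟩ := ha
    exact ⟨_, _, _, stepA hs s hb hB h, by have := card_erase_lt_of_mem hB; omega⟩
  have lt : ∀ N v, v ∈ H → v ∈ N → (H \ N).card < H.card := fun N v h1 h2 =>
    card_lt_card ⟨sdiff_subset, fun h => (mem_sdiff.1 (h h1)).2 h2⟩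
  by_cases hc : ∃ v ∈ H, ∃ n, 2 * (ball r H v n).card ≤ H.card ∧
      l * (ball r H v (n + 1) \ ball r H v n).card ≤ (ball r H v n).card
  · obtain ⟨v, hv, n, h1, h2⟩ := hc
    exact ⟨_, _, _, stepB hs s hb hv h1 h2, by
      have := lt _ v hv (ball_self (r := r) (H := H) (n + 1)); omega⟩
  push Not at ha hc
  have big : ∀ v ∈ H, H.card < 2 * (ball r H v (l * k)).card := fun v hv =>
    ball_big hl hv ((card_le_card s.hu).trans_lt hk) (hc v hv)
  obtain ⟨v, hv⟩ : H.Nonempty := card_pos.1 (by omega)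
  have cn : ∀ w ∈ H, ∃ C ⊆ H, v ∈ C ∧ w ∈ C ∧ Conn r C ∧ C.card ≤ 2 * (l * k) + 2 := by
    intro w hw
    obtain ⟨x, x1, x2⟩ : ∃ x, x ∈ ball r H v (l * k) ∧ x ∈ ball r H w (l * k) := by
      refine not_disjoint_iff.1 fun d => ?_
      have a1 := card_le_card (union_subset (ball_sub (r := r) hv (l * k))
        (ball_sub (r := r) hw (l * k)))
      have a2 := big v hv
      have a3 := big w hw
      rw [card_union_of_disjoint d] at a1
      omega
    obtain ⟨C, a1, a2, a3, a4, a5⟩ := ball_conn hs hv _ x x1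
    obtain ⟨C', b1, b2, b3, b4, b5⟩ := ball_conn hs hw _ x x2
    exact ⟨C ∪ C', union_subset a1 b1, mem_union_left _ a2, mem_union_right _ b2,
      conn_union a4 b4 a3 b3, (card_union_le _ _).trans (by omega)⟩
  obtain ⟨N, n1, n2, n3, n4, n5⟩ := join hv cn F ha
  have n6 := Nat.mul_le_mul_left (2 * (l * k) + 2) s.f4
  refine ⟨_, _, _, stepC hs h5 s n1 n2 n3 (by rw [mul_assoc]; omega) n5, ?_⟩
  have := lt N v hv n2
  have := card_insert_le N F
  omega

end Sep

theorem sepS : SepStmt := by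
  intro T _ r hs h5 U l k hl hk
  have main : ∀ (n : ℕ) (H R : Finset T) (F : Finset (Finset T)),
      Sep.St r U l (8 * l * k + 9) H R F → 2 * H.card + F.card < n →
      ∃ H' R' F', Sep.St r U l (8 * l * k + 9) H' R' F' ∧ 4 * H'.card ≤ 3 * U.card := by
    intro n
    induction n with
    | zero => exact fun _ _ _ _ h => absurd h (Nat.not_lt_zero _)
    | succ n ih =>
      intro H R F s h
      by_cases hb : 4 * H.card ≤ 3 * U.card
      · exact ⟨H, R, F, s, hb⟩
      · obtain ⟨H', R', F', s', h'⟩ := Sep.step hs h5 hl hk s (by omega)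
        exact ih H' R' F' s' (by omega)
  obtain ⟨H, R, F, s, h⟩ := main _ U ∅ ∅ ⟨subset_rfl, empty_subset _, disjoint_empty_right _,
    by simp, by simp, by simp, by simp, by simp, by simp⟩ (Nat.lt_succ_self _)
  refine ⟨H, R, s.hu, s.ru, s.dj, s.ne, h, s.r3, s.ct.trans ?_⟩
  refine Nat.add_le_add (card_le_card s.ru) (Nat.mul_le_mul_left l ?_)
  have a1 := sum_le_card_nsmul F (fun B => B.card) _ fun B hB => (s.fb B hB).2.2.2.2
  have a2 := Nat.mul_le_mul_right (8 * l * k + 9) s.f4
  rw [smul_eq_mul] at a1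
  rw [mul_assoc] at a1 a2 ⊢
  omega

end Pool.Agent.MP_0de6ea_al.RW
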