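import Pool.Agent.MP_0de6ea_al.RW.Vk
import Pool.Agent.MP_0de6ea_al.RW.Brk
import Pool.Agent.MP_0de6ea_al.RW.K5
import Pool.Agent.MP_0de6ea_al.RW.Sep
import Pool.Agent.MP_0de6ea_al.RW.Fol
import Pool.Agent.MP_0de6ea_al.RW.Cnt
import Pool.Agent.MP_0de6ea_al.RW.Det
import Pool.Agent.MP_0de6ea_al.RW.BallS

/-! The number of marked balls, up to a polynomial factor in the logarithm. -/

namespace Pool.Agent.MP_0de6ea_al.RW

open Filter Topology

theorem many {d n L m : ℕ} (hd : 2 ≤ d) (hL : L + 1 = 2 * n)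
    (h : (2 * d - 1) ^ 23 * (24 * (m + 1) * QQ L) ^ 2 * (QQ L * (L + 1)) ^ 46 <
      (2 * d - 1) ^ (L + 1)) : 2 ^ m ≤ 2 * fCount d n := by
  classical
  refine ballS d n L m hd hL (le_trans (Nat.mul_le_mul_left 7 (Finset.card_le_card ?_))
    (cntS d L (m + 1) hd (by omega)))
  intro R hR
  obtain ⟨h1, h2⟩ := Finset.mem_filter.1 hR
  refine Finset.mem_filter.2 ⟨h1, ?_⟩
  have h3 : ∀ i, Rd (R i) := (Finset.mem_filter.1 h1).2
  obtain ⟨t, D, lab, hf⟩ := vkS d L m R h3 h2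
  obtain ⟨U, u1, u2, u3⟩ := folS k5S sepS _ L D (brkS _ d L _ R D lab h3 hf)
  by_contra hb
  exact absurd (detS _ d L _ R D lab U hd hf u1 u2 u3 hb) (not_le.2 h)

theorem QQ_le : ∃ c : ℕ, 1 ≤ c ∧ ∀ L n : ℕ, L + 1 = 2 * n → 1 ≤ QQ L ∧ QQ L ≤ c * n ^ 5 := by
  obtain ⟨b, hb⟩ : ∃ b : ℕ, b = 9000 := ⟨_, rfl⟩
  refine ⟨1 + 20 * (b * 24) ^ 4, by omega, fun L n h => ?_⟩
  rw [QQ, KK, ← hb, h]
  refine ⟨by omega, ?_⟩
  have h1 : 1 ≤ n ^ 5 := Nat.one_le_pow _ _ (by omega)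
  have h2 : (b * (L + 23)) ^ 4 ≤ (b * (24 * n)) ^ 4 :=
    Nat.pow_le_pow_left (Nat.mul_le_mul_left _ (by omega)) _
  calc 1 + 2 * (5 * (b * (L + 23)) ^ 4) * (2 * n)
      ≤ n ^ 5 + 2 * (5 * (b * (24 * n)) ^ 4) * (2 * n) := by gcongr
    _ = _ := by ring

theorem window_lower (d : ℕ) (hd : 2 ≤ d) :
    ∀ᶠ n : ℕ in atTop, Real.exp ((2 * d - 1 : ℝ) ^ n / (n : ℝ) ^ 144) ≤ fCount d n := by
  obtain ⟨c, hc, hQ⟩ := QQ_le
  obtain ⟨l, hl⟩ : ∃ l : ℕ, l = 2 * d - 1 := ⟨_, rfl⟩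
  have hl3 : 3 ≤ l := by omega
  have hlr : (2 * d - 1 : ℝ) = l := by rw [hl, Nat.cast_sub (by omega)]; push_cast; rfl
  have ht := tendsto_pow_const_div_const_pow_of_one_lt 144 (r := (l : ℝ))
    (by exact_mod_cast (by omega : 1 < l))
  filter_upwards [ht.eventually (gt_mem_nhds (by norm_num : (0 : ℝ) < 1 / 2)),
    eventually_ge_atTop (4 * (24 * c * (c * 2) ^ 23 * l ^ 12) + 1)] with n h1 h2
  obtain ⟨L, hL⟩ : ∃ L, L + 1 = 2 * n := ⟨2 * n - 1, by omega⟩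
  obtain ⟨q1, q2⟩ := hQ L n hL
  have key := fun m => many (d := d) (n := n) (L := L) (m := m) hd hL
  rw [← hl, hL] at key
  generalize QQ L = Q at q1 q2 key
  obtain ⟨P, hP⟩ : ∃ P, P = 24 * Q * (Q * (2 * n)) ^ 23 * l ^ 12 := ⟨_, rfl⟩
  have hn : 1 ≤ n := by omega
  have hP0 : 0 < P := by rw [hP]; positivity
  have hP1 : 4 * P ≤ n ^ 144 := by
    calc 4 * P ≤ 4 * (24 * (c * n ^ 5) * (c * n ^ 5 * (2 * n)) ^ 23 * l ^ 12) := by
          rw [hP]; gcongr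
      _ = 4 * (24 * c * (c * 2) ^ 23 * l ^ 12) * n ^ 143 := by ring
      _ ≤ n * n ^ 143 := Nat.mul_le_mul_right _ (by omega)
      _ = _ := by ring
  have hn0 : (0 : ℝ) < (n : ℝ) ^ 144 := by positivity
  have hl0 : (0 : ℝ) < (l : ℝ) ^ n := by positivity
  rw [hlr]
  obtain ⟨x, hx⟩ : ∃ x : ℝ, x = (l : ℝ) ^ n / (n : ℝ) ^ 144 := ⟨_, rfl⟩
  rw [← hx]
  have hx2 : 2 < x := by
    rw [div_lt_iff₀ hl0] at h1
    rw [hx, lt_div_iff₀ hn0]
    linarith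
  have hxP : 4 * x * P ≤ (l : ℝ) ^ n := by
    have : (4 : ℝ) * P ≤ (n : ℝ) ^ 144 := by exact_mod_cast hP1
    calc 4 * x * P = x * (4 * P) := by ring
      _ ≤ x * (n : ℝ) ^ 144 := by gcongr
      _ = _ := by rw [hx]; field_simp
  have hdiv : 4 * x < ((l ^ n / P : ℕ) : ℝ) + 1 := by
    have h3 : l ^ n < (l ^ n / P + 1) * P := by
      rw [mul_comm]; exact Nat.lt_mul_div_succ _ hP0
    have h4 : (l : ℝ) ^ n < (((l ^ n / P : ℕ) : ℝ) + 1) * P := by exact_mod_cast h3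
    exact lt_of_mul_lt_mul_right (hxP.trans_lt h4) (Nat.cast_nonneg _)
  obtain ⟨m, hm⟩ : ∃ m, l ^ n / P = m + 2 := by
    have : (2 : ℝ) ≤ ((l ^ n / P : ℕ) : ℝ) := by linarith
    exact ⟨l ^ n / P - 2, by have : 2 ≤ l ^ n / P := by exact_mod_cast this
                             omega⟩
  have h5 : (m + 2) * P ≤ l ^ n := hm ▸ Nat.div_mul_le_self _ _
  have h6 := key (m + 1) (by
    have a1 : l * (l ^ 23 * (24 * (m + 1 + 1) * Q) ^ 2 * (Q * (2 * n)) ^ 46) ≤ l ^ (2 * n) := by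
      calc _ = ((m + 2) * P) ^ 2 := by rw [hP]; ring
        _ ≤ (l ^ n) ^ 2 := Nat.pow_le_pow_left h5 _
        _ = _ := by ring
    have a2 : 0 < l ^ (2 * n) := by positivity
    generalize l ^ 23 * (24 * (m + 1 + 1) * Q) ^ 2 * (Q * (2 * n)) ^ 46 = y at a1
    nlinarith)
  have h7 : (2 : ℝ) ^ m ≤ fCount d n := by
    have : 2 ^ m ≤ fCount d n := by rw [pow_succ] at h6; omega
    exact_mod_cast this
  refine le_trans ?_ h7
  rw [hm] at hdiv
  push_cast at hdiv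
  have h8 := Real.log_two_gt_d9
  rw [← Real.exp_log (by norm_num : (0 : ℝ) < 2), ← Real.exp_nat_mul, Real.exp_le_exp]
  nlinarith

theorem window_upper (d : ℕ) (hd : 2 ≤ d) :
    ∀ᶠ n : ℕ in atTop, (fCount d n : ℝ) ≤ Real.exp ((2 * d - 1 : ℝ) ^ n * (n : ℝ) ^ 3) := by
  have hd' : (2 : ℝ) ≤ d := by exact_mod_cast hd
  set lam : ℝ := 2 * d - 1 with hlam
  have hl1 : 1 < lam := by rw [hlam]; linarith
  filter_upwards [eventually_ge_atTop (4 * ((d + 1) * (2 * d) * (2 * d + 1)) + 1)] with n hn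
  set b := (redLe d n).card with hb
  have hb1 : (b : ℝ) ≤ (n + 1) * (2 * d * lam ^ n) := by
    have := card_redLe (d := d) (n := n) (by omega)
    have h2 : ((2 * d - 1 : ℕ) : ℝ) = lam := by
      rw [Nat.cast_sub (by omega)]; push_cast; rfl
    rw [← h2]
    exact_mod_cast this
  have hlog : (b : ℝ) + 1 ≤ Real.exp ((2 * d + 1) * (n + 1)) := by
    have e1 : (n : ℝ) + 1 ≤ Real.exp n := Real.add_one_le_exp _
    have e2 : 2 * (d : ℝ) ≤ Real.exp (2 * d) := by linarith [Real.add_one_le_exp (2 * (d : ℝ))]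
    have e3 : lam ^ n ≤ Real.exp (2 * d * n) := by
      rw [mul_comm, Real.exp_nat_mul]
      exact pow_le_pow_left₀ (by linarith) (by linarith) _
    have e4 : (2 : ℝ) ≤ Real.exp 1 := by linarith [Real.add_one_le_exp (1 : ℝ)]
    have e5 : (b : ℝ) ≤ Real.exp n * (Real.exp (2 * d) * Real.exp (2 * d * n)) := by
      refine hb1.trans ?_
      gcongr
    have e6 : (1 : ℝ) ≤ Real.exp n * (Real.exp (2 * d) * Real.exp (2 * d * n)) := by
      rw [← Real.exp_add, ← Real.exp_add]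
      exact Real.one_le_exp (by positivity)
    have e7 : Real.exp ((2 * d + 1) * (n + 1)) =
        Real.exp 1 * (Real.exp n * (Real.exp (2 * d) * Real.exp (2 * d * n))) := by
      rw [← Real.exp_add, ← Real.exp_add, ← Real.exp_add]
      congr 1
      ring
    rw [e7]
    nlinarith
  have h1 : (fCount d n : ℝ) ≤ ((b : ℝ) + 1) ^ (b * (d + 1)) := by
    exact_mod_cast fCount_le (d := d) (n := n)
  refine h1.trans ((pow_le_pow_left₀ (by positivity) hlog _).trans ?_)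
  rw [← Real.exp_nat_mul, Real.exp_le_exp]
  push_cast
  have hp : 0 < lam ^ n := by positivity
  have hn1 : (1 : ℝ) ≤ n := by exact_mod_cast (by omega : 1 ≤ n)
  have hn2 : 4 * ((d + 1) * (2 * d) * (2 * d + 1)) ≤ (n : ℝ) := by
    exact_mod_cast (by omega : 4 * ((d + 1) * (2 * d) * (2 * d + 1)) ≤ n)
  calc (b : ℝ) * (d + 1) * ((2 * d + 1) * (n + 1))
      ≤ (n + n) * (2 * d * lam ^ n) * (d + 1) * ((2 * d + 1) * (n + n)) := by
        gcongr
        exact hb1.trans (by gcongr)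
    _ = lam ^ n * (4 * ((d + 1) * (2 * d) * (2 * d + 1)) * (n : ℝ) ^ 2) := by ring
    _ ≤ lam ^ n * (n * (n : ℝ) ^ 2) := by gcongr
    _ = _ := by ring

end Pool.Agent.MP_0de6ea_al.RW
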