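import Pool.Agent.MP_0de6ea_al.RW.Spec

/-! Lists obtained by inserting blocks, and free reduction. -/

namespace Pool.Agent.MP_0de6ea_al.RW

open List

/-- `W` comes from `b` by inserting blocks one after the other. -/
inductive NeB {X : Type} (blk : List X → Prop) (b : List X) : List X → Prop
  | base : NeB blk b b
  | ins {A B h : List X} : NeB blk b (A ++ B) → blk h → NeB blk b (A ++ h ++ B)

namespace NeB

variable {X : Type} {blk blk' : List X → Prop}

theorem trans {b W W' : List X} (h : NeB blk b W) (h' : NeB blk W W') : NeB blk b W' := by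
  induction h' with
  | base => exact h
  | ins _ hb ih => exact ih.ins hb

theorem ctx {b W : List X} (h : NeB blk b W) (P S : List X) :
    NeB blk (P ++ b ++ S) (P ++ W ++ S) := by
  induction h with
  | base => exact base
  | @ins A B h _ hb ih =>
    have := ins (A := P ++ A) (B := B ++ S) (by simpa using ih) hb
    simpa using this

theorem append {b c A B : List X} (h : NeB blk b A) (h' : NeB blk c B) :
    NeB blk (b ++ c) (A ++ B) := by
  have h1 := h.ctx [] c
  have h2 := h'.ctx A []
  simp only [nil_append, append_nil] at h1 h2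
  exact h1.trans h2

theorem nest {b A B U : List X} (h : NeB blk b (A ++ B)) (hU : NeB blk [] U) :
    NeB blk b (A ++ U ++ B) :=
  h.trans (by simpa using hU.ctx A B)

theorem one {h : List X} (hb : blk h) : NeB blk [] h := by
  simpa using ins (A := []) (B := []) (b := []) base hb

theorem mono {b W : List X} (h : NeB blk b W) (hm : ∀ h, blk h → h ⊆ W → blk' h) :
    NeB blk' b W := by
  induction h with
  | base => exact base
  | @ins A B h _ hb ih =>
    refine (ih fun g hg hs => hm g hg fun x hx => ?_).ins (hm h hb fun x hx => by simp [hx])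
    have := hs hx
    simp only [mem_append] at this ⊢
    tauto

theorem loc {b c W : List X} {x : X} (h : NeB blk (b ++ x :: c) W) :
    ∃ A B, W = A ++ x :: B ∧ NeB blk b A ∧ NeB blk c B := by
  induction h with
  | base => exact ⟨b, c, rfl, base, base⟩
  | @ins A' B' h _ hb ih =>
    obtain ⟨A, B, e, hA, hB⟩ := ih
    rcases append_eq_append_iff.1 e with ⟨C, rfl, rfl⟩ | ⟨C, rfl, e2⟩
    · exact ⟨A' ++ h ++ C, B, by simp, hA.ins hb, hB⟩
    · rcases C with _ | ⟨y, C⟩
      · simp only [nil_append] at e2
        subst e2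
        exact ⟨A ++ h, B, by simp, by simpa using ins (A := A) (B := []) (by simpa using hA) hb, hB⟩
      · simp only [cons_append, cons.injEq] at e2
        obtain ⟨rfl, rfl⟩ := e2
        exact ⟨A, C ++ h ++ B', by simp, hA, hB.ins hb⟩

theorem rot (hr : ∀ p q, blk (p ++ q) → blk (q ++ p)) {U : List X} (h : NeB blk [] U) :
    ∀ P Q, U = P ++ Q → NeB blk [] (Q ++ P) := by
  induction h with
  | base =>
    intro P Q e
    obtain ⟨rfl, rfl⟩ := append_eq_nil_iff.1 e.symm
    exact base
  | @ins A B h _ hb ih =>
    intro P Q e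
    rcases append_eq_append_iff.1 e with ⟨C, rfl, rfl⟩ | ⟨C, e1, rfl⟩
    · have := ins (A := Q ++ A) (B := C) (by simpa using ih (A ++ C) Q (by simp)) hb
      simpa using this
    · rcases append_eq_append_iff.1 e1 with ⟨E, rfl, rfl⟩ | ⟨E, rfl, rfl⟩
      · have := nest (A := C) (B := E) (one (hr _ _ hb)) (ih A B rfl)
        simpa using this
      · have := ins (A := E) (B := B ++ P) (by simpa using ih P (E ++ B) (by simp)) hb
        simpa using this

/-- Classes that are inserted as whole blocks do not interlace. -/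
theorem nf {C : Type} (c : X → C) (hc : ∀ h, blk h → ∃ f, ∀ x, x ∈ h ↔ c x = f) {W : List X}
    (h : NeB blk [] W) (hn : W.Nodup) {x y x' y' : X} (h1 : c x = c x') (h2 : c y = c y')
    (h3 : c x ≠ c y) : ¬ [x, y, x', y'] <+ W := by
  classical
  induction h with
  | base => simp
  | @ins A B h _ hb ih =>
    intro hs
    obtain ⟨f, hf⟩ := hc h hb
    have hA : ∀ z ∈ A, c z ≠ f := fun z hz e =>
      (nodup_append.1 (nodup_append.1 hn).1).2.2 z hz z ((hf z).2 e) rfl
    have hB : ∀ z ∈ B, c z ≠ f := fun z hz e =>
      (nodup_append.1 hn).2.2 z (mem_append_right _ ((hf z).2 e)) z hz rfl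
    obtain ⟨l, l3, e, s12, s3⟩ := sublist_append_iff.1 hs
    obtain ⟨l1, l2, rfl, s1, s2⟩ := sublist_append_iff.1 s12
    have a1 : ∀ z ∈ l1, c z ≠ f := fun z hz => hA z (s1.subset hz)
    have a2 : ∀ z ∈ l2, c z = f := fun z hz => (hf z).1 (s2.subset hz)
    have a3 : ∀ z ∈ l3, c z ≠ f := fun z hz => hB z (s3.subset hz)
    rcases l2 with _ | ⟨z, l2⟩
    · refine ih (hn.sublist (by simp)) ?_
      rw [e, append_nil]
      exact s1.append s3
    · rcases l1 with _ | ⟨u1, _ | ⟨u2, _ | ⟨u3, _ | ⟨u4, l1⟩⟩⟩⟩ <;>
      rcases l2 with _ | ⟨v2, _ | ⟨v3, l2⟩⟩ <;>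
      simp only [cons_append, nil_append, cons.injEq] at e <;>
      simp only [mem_cons, forall_eq_or_imp] at a1 a2 <;>
      grind

theorem prod {G : Type} [Group G] (v : X → G) {W : List X} (h : NeB blk [] W)
    (hb : ∀ h, blk h → h ⊆ W → (h.map v).prod = 1) : (W.map v).prod = 1 := by
  have h' : NeB (fun h => (h.map v).prod = 1) [] W := h.mono hb
  clear h hb
  induction h' with
  | base => simp
  | ins _ hb ih => simpa [hb] using ih

end NeB

section Junction
variable {X : Type} [DecidableEq X] (n : X → X)

/-- The entries that are not followed by their successor. -/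
def jl : List X → List X
  | [] => []
  | [x] => [x]
  | x :: y :: l => if y = n x then jl (y :: l) else x :: jl (y :: l)

theorem jl_spec {W : List X} {x : X} (hx : x ∈ W) (h : x ∉ jl n W) :
    ∃ A B, W = A ++ x :: n x :: B := by
  induction W with
  | nil => simp at hx
  | cons y l ih =>
    rcases l with _ | ⟨z, l⟩
    · simp_all [jl]
    · by_cases e : x = y ∧ z = n y
      · obtain ⟨rfl, rfl⟩ := e
        exact ⟨[], l, rfl⟩
      · have h1 : x ∉ jl n (z :: l) ∧ (x = y → z = n y) := by
          simp only [jl] at h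
          split_ifs at h with h2
          · exact ⟨h, fun _ => h2⟩
          · simp only [mem_cons, not_or] at h
            exact ⟨h.2, fun e => absurd e h.1⟩
        have h2 : x ∈ z :: l := by
          rcases mem_cons.1 hx with e' | e'
          · exact absurd ⟨e', h1.2 e'⟩ e
          · exact e'
        obtain ⟨A, B, e'⟩ := ih h2 h1.1
        exact ⟨y :: A, B, by rw [e']; rfl⟩

theorem jl_append (A B : List X) :
    (jl n (A ++ B)).length ≤ (jl n A).length + (jl n B).length ∧
      (jl n A).length + (jl n B).length ≤ (jl n (A ++ B)).length + 1 := by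
  induction A with
  | nil => simp [jl]
  | cons x A ih =>
    rcases A with _ | ⟨y, A⟩
    · rcases B with _ | ⟨z, B⟩
      · simp [jl]
      · simp only [cons_append, nil_append, jl]
        split_ifs <;> simp only [length_cons, length_nil] <;> omega
    · simp only [cons_append, jl] at ih ⊢
      split_ifs <;> (try simp only [length_cons]) <;> omega

theorem jl_chain {h : List X} (hc : h.IsChain fun x y => y = n x) : (jl n h).length ≤ 1 := by
  induction hc with
  | nil => simp [jl]
  | singleton => simp [jl]
  | cons_cons e _ ih => simpa [jl, e] using ih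

theorem jl_nest {blk : List X → Prop} {k : ℕ}
    (hb : ∀ h, blk h → h.length = k ∧ h.IsChain fun x y => y = n x) {W : List X}
    (h : NeB blk [] W) : (jl n W).length * k ≤ 2 * W.length := by
  induction h with
  | base => simp [jl]
  | @ins A B h _ hh ih =>
    have h1 := (jl_append n (A ++ h) B).1
    have h2 := (jl_append n A h).1
    have h3 := (jl_append n A B).2
    have h4 := jl_chain n (hb h hh).2
    have h5 : (jl n (A ++ h ++ B)).length ≤ (jl n (A ++ B)).length + 2 := by omega
    have h6 := Nat.mul_le_mul_right k h5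
    simp only [length_append, (hb h hh).1] at ih ⊢
    rw [Nat.add_mul] at h6
    omega

theorem sublist_of_idx {W l : List X} (hl : ∀ x ∈ l, x ∈ W)
    (hp : l.Pairwise fun x y => W.idxOf x < W.idxOf y) : l <+ W := by
  induction W generalizing l with
  | nil =>
    rcases l with _ | ⟨x, l⟩
    · exact Sublist.slnil
    · simpa using hl x (by simp)
  | cons w W ih =>
    have key : ∀ l : List X, (∀ x ∈ l, x ∈ w :: W) → (∀ x ∈ l, x ≠ w) →
        (l.Pairwise fun x y => (w :: W).idxOf x < (w :: W).idxOf y) → l <+ W := by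
      intro l h1 h2 h3
      refine ih (fun x hx => (mem_cons.1 (h1 x hx)).resolve_left (h2 x hx)) ?_
      refine h3.imp_of_mem fun {a b} ha hb hab => ?_
      rw [idxOf_cons_ne _ (h2 a ha).symm, idxOf_cons_ne _ (h2 b hb).symm] at hab
      omega
    rcases l with _ | ⟨x, l⟩
    · exact nil_sublist _
    · have h1 : ∀ y ∈ l, y ≠ w := by
        rintro y hy rfl
        have := (pairwise_cons.1 hp).1 y hy
        simp at this
      by_cases e : x = w
      · subst e
        exact (key l (fun y hy => hl y (mem_cons_of_mem _ hy)) h1 (pairwise_cons.1 hp).2).cons_cons _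
      · exact (key _ hl (by simpa using ⟨e, h1⟩) hp).cons _

end Junction

section Free
open FreeGroup
variable {d : ℕ}

theorem iv_iv (x : Lt d) : iv (iv x) = x := by simp [iv]

theorem iv_ne (x : Lt d) : iv x ≠ x := by
  obtain ⟨a, b⟩ := x
  simp [iv]

theorem mk_iv (x : Lt d) : mk [iv x] = (mk [x])⁻¹ := by
  rw [inv_mk]; simp [invRev, iv]

theorem mk_nil : mk ([] : List (Lt d)) = 1 := rfl

theorem mk_app (A B : List (Lt d)) : mk (A ++ B) = mk A * mk B := mul_mk.symm

theorem mk_con (x : Lt d) (B : List (Lt d)) : mk (x :: B) = mk [x] * mk B := mk_app [x] B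

theorem red_split {V P S : List (Lt d)} {y : Lt d} (h : FreeGroup.Red V (P ++ y :: S)) :
    ∃ A B, V = A ++ y :: B ∧ mk A = mk P ∧ mk B = mk S := by
  induction h using Relation.ReflTransGen.head_induction_on with
  | refl => exact ⟨P, S, rfl, rfl, rfl⟩
  | head st _ ih =>
    obtain ⟨A, B, e, hA, hB⟩ := ih
    rcases st with @⟨L1, L2, x, b⟩
    have hx : mk [(x, b)] * mk [(x, !b)] = 1 := by
      rw [show (x, !b) = iv (x, b) from rfl, mk_iv, mul_inv_cancel]
    rcases append_eq_append_iff.1 e with ⟨C, rfl, rfl⟩ | ⟨C, rfl, e2⟩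
    · refine ⟨L1 ++ (x, b) :: (x, !b) :: C, B, by simp, ?_, hB⟩
      rw [← hA, mk_app, mk_app, mk_con, mk_con _ C, ← mul_assoc (mk [_]), hx, one_mul]
    · rcases C with _ | ⟨z, C⟩
      · simp only [nil_append] at e2
        subst e2
        refine ⟨A ++ [(x, b), (x, !b)], B, by simp, ?_, hB⟩
        rw [← hA, mk_app, mk_con, hx, mul_one]
      · simp only [cons_append, cons.injEq] at e2
        obtain ⟨rfl, rfl⟩ := e2
        refine ⟨A, C ++ (x, b) :: (x, !b) :: L2, by simp, hA, ?_⟩
        rw [← hB, mk_app, mk_app, mk_con, mk_con _ L2, ← mul_assoc (mk [_]), hx, one_mul]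

end Free

end Pool.Agent.MP_0de6ea_al.RW
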