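import Pool.Agent.MP_0de6ea_al.RW.VkA
import Mathlib.Data.List.ChainOfFn

/-! A reduced spherical diagram for a word in the normal closure of the other words. -/

namespace Pool.Agent.MP_0de6ea_al.RW

open List FreeGroup

namespace Vk

variable {d L m : ℕ}

/-- An element or its inverse. -/
def sgF {G : Type} [Group G] (b : Bool) (g : G) : G := if b then g else g⁻¹

theorem sgF_not {G : Type} [Group G] (b : Bool) (g : G) : sgF (!b) g = (sgF b g)⁻¹ := by
  cases b <;> simp [sgF]

theorem mk_sg (b : Bool) (x : Lt d) : mk [sg b x] = sgF b (mk [x]) := by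
  cases b <;> simp [sg, sgF, mk_iv]

/-- Conjugates of the relators and of their inverses. -/
def Cj (R : Fin (m + 1) → Wd d L) (z : FreeGroup (Fin d)) : Prop :=
  ∃ i, i ≠ 0 ∧ ∃ b c, z = c * sgF b (el (R i)) * c⁻¹

/-- Products of `n` conjugates. -/
inductive Ar (R : Fin (m + 1) → Wd d L) : ℕ → FreeGroup (Fin d) → Prop
  | nil : Ar R 0 1
  | snoc {n g z} : Ar R n g → Cj R z → Ar R (n + 1) (g * z)

variable {R : Fin (m + 1) → Wd d L}

theorem Cj.conj {z : FreeGroup (Fin d)} (h : Cj R z) (g : FreeGroup (Fin d)) :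
    Cj R (g * z * g⁻¹) := by
  obtain ⟨i, hi, b, c, rfl⟩ := h
  exact ⟨i, hi, b, g * c, by group⟩

theorem Cj.inv {z : FreeGroup (Fin d)} (h : Cj R z) : Cj R z⁻¹ := by
  obtain ⟨i, hi, b, c, rfl⟩ := h
  exact ⟨i, hi, !b, c, by rw [sgF_not]; group⟩

theorem Ar.mul {n k : ℕ} {g h : FreeGroup (Fin d)} (hg : Ar R n g) (hh : Ar R k h) :
    Ar R (n + k) (g * h) := by
  induction hh with
  | nil => simpa using hg
  | snoc _ hz ih => rw [← mul_assoc, ← add_assoc]; exact ih.snoc hz

theorem Ar.conj {n : ℕ} {g : FreeGroup (Fin d)} (hg : Ar R n g) (c : FreeGroup (Fin d)) :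
    Ar R n (c * g * c⁻¹) := by
  induction hg with
  | nil => simpa using Ar.nil
  | @snoc n g z _ hz ih =>
    rw [show c * (g * z) * c⁻¹ = c * g * c⁻¹ * (c * z * c⁻¹) by group]
    exact ih.snoc (hz.conj c)

theorem Ar.inv {n : ℕ} {g : FreeGroup (Fin d)} (hg : Ar R n g) : Ar R n g⁻¹ := by
  induction hg with
  | nil => simpa using Ar.nil
  | @snoc n g z _ hz ih =>
    rw [show (g * z)⁻¹ = g⁻¹ * (g * z⁻¹ * g⁻¹) by group]
    exact ih.snoc (hz.inv.conj g)

theorem dep_ar (h : Dep R) : ∃ n, Ar R n (el (R 0)) := by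
  let H : Subgroup (FreeGroup (Fin d)) :=
    { carrier := {g | ∃ n, Ar R n g}
      one_mem' := ⟨0, Ar.nil⟩
      mul_mem' := fun ⟨_, h1⟩ ⟨_, h2⟩ => ⟨_, h1.mul h2⟩
      inv_mem' := fun ⟨_, h1⟩ => ⟨_, h1.inv⟩ }
  have : H.Normal := ⟨fun _ ⟨_, h1⟩ c => ⟨_, h1.conj c⟩⟩
  refine Subgroup.normalClosure_le_normal (N := H) ?_ h
  rintro _ ⟨i, rfl⟩
  exact ⟨1, by simpa [sgF] using Ar.nil.snoc (R := R) ⟨i.succ, i.succ_ne_zero, true, 1, rfl⟩⟩

theorem Ar.form {n : ℕ} {g : FreeGroup (Fin d)} (hg : Ar R n g) :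
    ∃ (lab : ℕ → Fin (m + 1)) (s : ℕ → Bool) (c : ℕ → FreeGroup (Fin d)),
      (∀ i < n, lab i ≠ 0) ∧
      g = ((List.range n).map fun i => c i * (sgF (s i) (el (R (lab i))))⁻¹ * (c i)⁻¹).prod := by
  induction hg with
  | nil => exact ⟨0, fun _ => true, 1, by simp, by simp⟩
  | @snoc n g z _ hz ih =>
    obtain ⟨lab, s, c, h1, h2⟩ := ih
    obtain ⟨i, hi, b, c0, rfl⟩ := hz
    refine ⟨Function.update lab n i, Function.update s n (!b), Function.update c n c0,
      fun j hj => ?_, ?_⟩
    · by_cases e : j = n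
      · simpa [e] using hi
      · rw [Function.update_of_ne e]; exact h1 j (by omega)
    · rw [range_succ, List.map_append, prod_append, h2]
      congr 1
      · congr 1
        refine map_congr_left fun j hj => ?_
        have e : j ≠ n := by have := mem_range.1 hj; omega
        simp only [Function.update_of_ne e]
      · simp [sgF_not]

section Cyc
variable {T : Type} (s : T → Bool)

/-- The darts of a face in cyclic order. -/
def cyc (L : ℕ) (f : T) : List (Dt T L) :=
  List.ofFn fun a : Fin (L + 1) => (f, if s f then a else a.rev)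

theorem mem_cyc {f : T} {x : Dt T L} : x ∈ cyc s L f ↔ x.1 = f := by
  rw [cyc, mem_ofFn]
  constructor
  · rintro ⟨a, rfl⟩; rfl
  · rintro rfl
    exact ⟨if s x.1 then x.2 else x.2.rev, by cases s x.1 <;> simp⟩

theorem nodup_cyc (f : T) : (cyc s L f).Nodup := by
  refine nodup_ofFn.2 fun a b h => ?_
  cases e : s f <;> simpa [e] using h

theorem length_cyc (f : T) : (cyc s L f).length = L + 1 := by simp [cyc]

theorem chain_cyc (f : T) : (cyc s L f ++ cyc s L f).IsChain fun x y => y = nx s x := by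
  have h : (cyc s L f).IsChain fun x y => y = nx s x := by
    rw [cyc, isChain_ofFn]
    intro i hi
    cases e : s f
    · simp only [nx, e, Prod.mk.injEq, true_and, Bool.false_eq_true, if_false]
      rw [eq_sub_iff_add_eq]
      ext
      rw [Fin.val_add_one_of_lt' (by simp only [Fin.val_rev]; omega)]
      simp only [Fin.val_rev]
      omega
    · simp only [nx, e, Prod.mk.injEq, true_and, if_true]
      ext
      rw [Fin.val_add_one_of_lt' hi]
  refine isChain_append.2 ⟨h, h, fun x hx y hy => ?_⟩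
  have h1 : x = (f, if s f then Fin.last L else (Fin.last L).rev) := by
    rw [cyc, List.ofFn_succ'] at hx
    simpa using hx.symm
  have h2 : y = (f, if s f then 0 else (0 : Fin (L + 1)).rev) := by
    rw [cyc, List.ofFn_succ] at hy
    simpa using hy.symm
  subst h1 h2
  cases e : s f
  · simp only [nx, e, Prod.mk.injEq, true_and, Bool.false_eq_true, if_false]
    rw [eq_sub_iff_add_eq]
    simp
  · simp [nx, e]

theorem prod_cyc {G : Type} [Group G] (f : T) (v : Dt T L → G) (ρ : Fin (L + 1) → G)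
    (h : ∀ a, v (f, a) = sgF (s f) (ρ a)) :
    ((cyc s L f).map v).prod = sgF (s f) (List.ofFn ρ).prod := by
  rw [cyc, map_ofFn]
  cases e : s f
  · simp only [sgF, e, Bool.false_eq_true, if_false] at h ⊢
    rw [List.prod_inv_reverse]
    congr 1
    refine List.ext_getElem (by simp) fun i h1 h2 => ?_
    simp only [List.getElem_ofFn, Function.comp, h, getElem_reverse, getElem_map, length_map,
      length_ofFn]
    congr 2
    ext
    simp only [Fin.val_rev]
    omega
  · simp only [sgF, e, if_true] at h ⊢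
    congr 2
    funext a
    exact h a

/-- Rotations of the faces with property `P`. -/
def Blk (L : ℕ) (P : T → Prop) (h : List (Dt T L)) : Prop :=
  ∃ f, P f ∧ ∃ p q, cyc s L f = p ++ q ∧ h = q ++ p

theorem Blk.rot {P : T → Prop} (p q : List (Dt T L)) (h : Blk s L P (p ++ q)) :
    Blk s L P (q ++ p) := by
  obtain ⟨f, hf, p', q', e1, e2⟩ := h
  rcases append_eq_append_iff.1 e2 with ⟨E, rfl, rfl⟩ | ⟨E, rfl, rfl⟩
  · exact ⟨f, hf, p' ++ p, E, by simp [e1], by simp⟩
  · exact ⟨f, hf, E, q ++ q', by simp [e1], by simp⟩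

end Cyc

theorem el_eq (w : Wd d L) : el w = (List.ofFn fun a => mk [w a]).prod := by
  have := val_eq_prod (id : Lt d → Lt d) (List.ofFn w)
  rw [val, List.map_id, map_ofFn] at this
  exact this

theorem kill {G : Type} [Group G] {n : ℕ} (ρ : Fin n → G) (a : Fin n) :
    ∃ γ, (List.ofFn (Function.update ρ a γ)).prod = 1 := by
  suffices h : ∀ g, ∃ γ, (List.ofFn (Function.update ρ a γ)).prod = g from h 1
  induction n with
  | zero => exact a.elim0
  | succ n ih =>
    intro g
    refine Fin.cases ?_ (fun a => ?_) a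
    · refine ⟨g * (List.ofFn fun i => ρ i.succ).prod⁻¹, ?_⟩
      simp [List.ofFn_succ]
    · obtain ⟨γ, hγ⟩ := ih (fun i => ρ i.succ) a ((ρ 0)⁻¹ * g)
      refine ⟨γ, ?_⟩
      have e : (fun i : Fin n => Function.update ρ a.succ γ i.succ) =
          Function.update (fun i => ρ i.succ) a γ := by
        funext i
        by_cases h : i = a
        · simp [h]
        · simp [h]
      rw [List.ofFn_succ, List.prod_cons, e, hγ, Function.update_of_ne (Fin.succ_ne_zero _).symm]
      group

theorem sound {X : Type} {blk : List X → Prop} {b W : List X} (v : X → FreeGroup (Fin d))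
    (q : X → Bool) (h : NeB blk b W)
    (hb : ∀ h, blk h → ∃ k, Ar R k (h.map v).prod ∧ k ≤ h.countP q) :
    ∃ k z, Ar R k z ∧ (W.map v).prod = (b.map v).prod * z ∧ k + b.countP q ≤ W.countP q := by
  induction h with
  | base => exact ⟨0, 1, Ar.nil, by simp, by simp⟩
  | @ins A B h _ hh ih =>
    obtain ⟨k, z, h1, h2, h3⟩ := ih
    obtain ⟨k', h4, h5⟩ := hb h hh
    refine ⟨k + k', _, h1.mul (h4.conj (B.map v).prod⁻¹), ?_, ?_⟩
    · simp only [List.map_append, prod_append] at h2 ⊢
      rw [← mul_assoc, ← mul_assoc, ← mul_assoc, ← h2]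
      group
    · simp only [countP_append] at h3 ⊢
      omega

section Main
variable {n : ℕ} (lab : Fin (n + 1) → Fin (m + 1)) (s : Fin (n + 1) → Bool)

/-- The letter on a dart. -/
def le (R : Fin (m + 1) → Wd d L) (x : Dt (Fin (n + 1)) L) : Lt d := sg (s x.1) (R (lab x.1) x.2)

theorem val_cyc (f : Fin (n + 1)) :
    val (le lab s R) (cyc s L f) = sgF (s f) (el (R (lab f))) := by
  rw [val_eq_prod, el_eq]
  exact prod_cyc s f _ _ fun a => mk_sg _ _

theorem start (c : ℕ → FreeGroup (Fin d)) (t : ℕ → FreeGroup (Fin d))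
    (ht : ∀ f : Fin (n + 1), f.val < n → t f = sgF (s f) (el (R (lab f)))) (k : ℕ) (hk : k ≤ n) :
    ∃ (w : List (Lt d)) (W : List (Lt d ⊕ Dt (Fin (n + 1)) L)) (D : List (Dt (Fin (n + 1)) L)),
      mk w = ((List.range k).map fun i => c i * (t i)⁻¹ * (c i)⁻¹).prod ∧
      NeB (fun g => ∃ g0, Blk s L (fun f => f.val < n) g0 ∧ g = g0.map Sum.inr) (w.map Sum.inl) W ∧
      val (Sum.elim id (le lab s R)) W = 1 ∧ W ~ w.map Sum.inl ++ D.map Sum.inr ∧ D.Nodup ∧
      ∀ x, x ∈ D ↔ x.1.val < k := by
  induction k with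
  | zero => exact ⟨[], [], [], rfl, NeB.base, rfl, by simp, by simp, by simp⟩
  | succ k ih =>
    obtain ⟨w, W, D, h1, h2, h3, h4, h5, h6⟩ := ih (by omega)
    let f : Fin (n + 1) := ⟨k, by omega⟩
    have hf := ht f (by simp only [f]; omega)
    have e1 : ∀ u : List (Lt d), val (Sum.elim id (le lab s R)) (u.map Sum.inl) = mk u := by
      intro u; simp [val, Function.comp_def]
    have e2 : val (Sum.elim id (le lab s R)) ((cyc s L f).map Sum.inr) = t k := by
      rw [show t k = t f from rfl, hf, ← val_cyc]; simp [val, Function.comp_def]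
    refine ⟨w ++ ((c k).toWord ++ (t k)⁻¹.toWord ++ (c k)⁻¹.toWord),
      W ++ (((c k).toWord ++ (t k)⁻¹.toWord).map Sum.inl ++ (cyc s L f).map Sum.inr ++
        (c k)⁻¹.toWord.map Sum.inl), D ++ cyc s L f, ?_, ?_, ?_, ?_, ?_, fun x => ?_⟩
    · rw [range_succ, List.map_append, prod_append, ← h1]
      simp only [mk_app, mk_toWord, List.map_cons, List.map_nil, prod_cons, prod_nil, mul_one]
    · rw [List.map_append]
      refine h2.append (NeB.ins ?_ ⟨_, ⟨f, by simp only [f]; omega, [], cyc s L f, rfl, by simp⟩, rfl⟩)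
      rw [← List.map_append]
      exact NeB.base
    · simp only [val_append, h3, e1, e2, mk_app, mk_toWord]
      group
    · refine (h4.append_right _).trans ?_
      simp only [List.map_append, append_assoc]
      refine Perm.append_left _ ((perm_append_comm_assoc _ _ _).trans (Perm.append_left _
        ((perm_append_comm_assoc _ _ _).trans (Perm.append_left _ ?_))))
      rw [← append_assoc]
      exact perm_append_comm
    · refine nodup_append.2 ⟨h5, nodup_cyc s f, fun a ha b hb e => ?_⟩
      have := (h6 a).1 ha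
      rw [e, (mem_cyc s).1 hb] at this
      simp [f] at this
    · rw [mem_append, h6, mem_cyc, Fin.ext_iff]
      simp only [f]
      omega

end Main

theorem isReduced {w : Wd d L} (h : Rd w) : FreeGroup.IsReduced (List.ofFn w) := by
  rw [FreeGroup.IsReduced, isChain_ofFn]
  intro i hi e
  by_contra h2
  refine h ⟨i, by omega⟩ (Prod.ext e.symm ?_)
  simp only [iv, Fin.succ_mk, Fin.castSucc_mk]
  exact Bool.eq_not_of_ne (Ne.symm h2)

section Ix
variable {X : Type} [DecidableEq X] {W : List X}

/-- The position in a list. -/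
def ix (W : List X) (x : X) : ℕ := W.idxOf x

theorem ix_inj {x y : X} (hx : x ∈ W) (e : ix W x = ix W y) : x = y := (idxOf_inj hx).1 e

theorem ix_lt {x : X} (hx : x ∈ W) : ix W x < W.length := idxOf_lt_length_of_mem hx

theorem ix_four (h : ∀ x, x ∈ W) {x y z u : X} (e1 : ix W x < ix W y) (e2 : ix W y < ix W z)
    (e3 : ix W z < ix W u) : [x, y, z, u] <+ W :=
  sublist_of_idx (fun x _ => h x) (by
    simp only [pairwise_cons, mem_cons, not_mem_nil, or_false, forall_eq_or_imp, forall_eq,
      Pairwise.nil, IsEmpty.forall_iff, implies_true, and_true, ix] at e1 e2 e3 ⊢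
    omega)

theorem ix_next {A B : List X} {x y : X} (hn : (A ++ x :: y :: B).Nodup) :
    ix (A ++ x :: y :: B) y = ix (A ++ x :: y :: B) x + 1 := by
  have c1 : x ∉ A := fun h => (nodup_append.1 hn).2.2 _ h _ (by simp) rfl
  have c2 : y ∉ A := fun h => (nodup_append.1 hn).2.2 _ h _ (by simp) rfl
  have c3 : x ≠ y := fun h => (nodup_cons.1 (nodup_append.1 hn).2.1).1 (by rw [← h]; simp)
  rw [ix, ix, idxOf_append_of_notMem c1, idxOf_append_of_notMem c2, idxOf_cons_ne _ c3]
  simp

end Ix

end Vk

open Vk in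
theorem vkS : VkStmt := by
  classical
  intro d L m R hR hd
  have hex := dep_ar hd
  obtain ⟨n, hn, hmin⟩ : ∃ n, Ar R n (el (R 0)) ∧ ∀ k, Ar R k (el (R 0)) → n ≤ k :=
    ⟨Nat.find hex, Nat.find_spec hex, fun k hk => Nat.find_min' hex hk⟩
  obtain ⟨lab0, s0, c, hl0, hg⟩ := hn.form
  let lab : Fin (n + 1) → Fin (m + 1) := fun f => if f.val < n then lab0 f else 0
  let s : Fin (n + 1) → Bool := fun f => if f.val < n then s0 f else true
  have hlab : ∀ f : Fin (n + 1), f.val < n → lab f ≠ 0 := fun f hf => by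
    simpa [lab, hf] using hl0 f hf
  have hlast : lab (Fin.last n) = 0 ∧ s (Fin.last n) = true := by simp [lab, s]
  obtain ⟨w, W0, D, h1, h2, h3, h4, h5, h6⟩ := start (R := R) lab s c
    (fun i => sgF (s0 i) (el (R (lab0 i)))) (fun f hf => by simp [lab, s, hf]) n le_rfl
  have hroot : (cyc s L (Fin.last n)).map (le lab s R) = List.ofFn (R 0) := by
    rw [cyc, map_ofFn]
    congr 1
    funext a
    simp [le, hlast, sg]
  have hred : FreeGroup.Red w ((cyc s L (Fin.last n)).map (le lab s R)) := by
    rw [hroot, ← isReduced_iff_reduce_eq.1 (isReduced (hR 0)), ← toWord_mk,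
      show mk (List.ofFn (R 0)) = mk w from hg.trans h1.symm, toWord_mk]
    exact reduce.red
  obtain ⟨W1, k1, k2, k3⟩ := red_close (le lab s R) (by
    rintro p q ⟨g0, hb, e⟩
    obtain ⟨p0, q0, rfl, rfl, rfl⟩ := map_eq_append_iff.1 e.symm
    exact ⟨_, hb.rot, by simp⟩) hred h2 h3 h4
  obtain ⟨W, j1, j2, j3⟩ := relabel (le lab s R) k1
  have j4 : W ~ cyc s L (Fin.last n) ++ D := by
    refine j3.trans (Perm.append_left _ ?_)
    simpa [filterMap_map, Function.comp_def] using k3.filterMap Sum.getRight?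
  have hnd : W.Nodup := by
    refine j4.nodup_iff.2 (nodup_append.2 ⟨nodup_cyc s _, h5, fun a ha b hb e => ?_⟩)
    have := (h6 b).1 hb
    rw [← e, (mem_cyc s).1 ha] at this
    simp at this
  have hall : ∀ x, x ∈ W := fun x => by
    rw [j4.mem_iff, mem_append, mem_cyc, h6, Fin.ext_iff, Fin.val_last]
    have := x.1.2
    omega
  have hlen : W.length = Fintype.card (Fin (n + 1)) * (L + 1) := by
    rw [← List.toFinset_card_of_nodup hnd, Finset.eq_univ_of_forall fun x => mem_toFinset.2 (hall x)]
    simp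
  have hw : FreeGroup.Red (W.map (le lab s R)) [] := by
    have : reduce (W.map (le lab s R)) = [] := by
      rw [← toWord_mk, toWord_eq_nil_iff, j2]; exact k2
    rw [← this]
    exact reduce.red
  obtain ⟨al, a1, -, a2, a3⟩ := matching (le lab s R) hw W rfl hnd
  have a4 : ∀ x, al x ≠ x := fun x e => iv_ne _ (by rw [← a2 x (hall x), e])
  have j5 : NeB (Blk s L fun _ => True) [] W :=
    (NeB.one ⟨Fin.last n, trivial, [], cyc s L (Fin.last n), rfl, by simp⟩).trans
      (j1.mono fun h ⟨f, _, hf⟩ _ => ⟨f, trivial, hf⟩)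
  refine ⟨n, ⟨s, al, ix W, a1, a4, fun x y e => ix_inj (hall x) e,
    fun x => hlen ▸ ix_lt (hall x), fun x y e1 e2 e3 => ?_,
    fun x x' y y' e1 e2 e3 e4 e5 e6 => ?_, ?_⟩, lab, fun x => a2 x (hall x), fun x hx => ?_⟩
  · refine a3.nf (fun x => ({x, al x} : Set _)) ?_ hnd ?_ ?_ ?_ (ix_four hall e1 e2 e3)
    · rintro _ ⟨z, rfl⟩
      refine ⟨{z, al z}, fun u => ?_⟩
      simp only [mem_cons, not_mem_nil, or_false, Set.pair_eq_pair_iff]
      constructor
      · rintro (rfl | rfl) <;> simp [a1]
      · tauto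
    · simp [a1, Set.pair_comm]
    · simp [a1, Set.pair_comm]
    · intro e
      rcases Set.pair_eq_pair_iff.1 e with ⟨rfl, -⟩ | ⟨-, e'⟩
      · omega
      · rw [e'] at e2; omega
  · refine j5.nf Prod.fst ?_ hnd e1 e2 e3 (ix_four hall e4 e5 e6)
    rintro _ ⟨f, -, p, q, e, rfl⟩
    exact ⟨f, fun u => by rw [← mem_cyc s, e]; simp [or_comm]⟩
  · have b1 := jl_nest (nx s) (k := L + 1) (blk := Blk s L fun _ => True) (by
      rintro _ ⟨f, -, p, q, e, rfl⟩
      have := length_cyc (L := L) s f
      rw [e, length_append] at this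
      have h9 := chain_cyc (L := L) s f
      rw [e, show p ++ q ++ (p ++ q) = p ++ (q ++ p ++ q) by simp] at h9
      exact ⟨by rw [length_append]; omega, h9.right_of_append.left_of_append⟩) j5
    rw [hlen, ← mul_assoc] at b1
    have b2 := Nat.le_of_mul_le_mul_right b1 (Nat.succ_pos L)
    refine le_trans (Finset.card_le_card (t := (jl (nx s) W).toFinset) fun x hx => ?_)
      ((toFinset_card_le _).trans (by omega))
    by_contra hc
    obtain ⟨A, B, e⟩ := jl_spec (nx s) (hall x) (mt mem_toFinset.2 hc)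
    refine (Finset.mem_filter.1 hx).2 ?_
    rw [e] at hnd ⊢
    exact ix_next hnd
  · obtain ⟨e1, e2⟩ := hx
    change lab (al x).1 = lab x.1 at e1
    change (al x).2 = x.2 at e2
    have hff : (al x).1 ≠ x.1 := fun e => a4 x (Prod.ext e e2)
    have hlt : ∀ f g : Fin (n + 1), f ≠ g → lab f = lab g → f.val < n := by
      intro f g hfg e
      by_contra hc
      have h7 : lab f = 0 := by simp [lab, hc]
      refine hlab g ?_ (e ▸ h7)
      have := f.2
      have := g.2
      have := Fin.val_ne_of_ne hfg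
      omega
    have f1 := hlt _ _ hff e1
    have f2 := hlt _ _ hff.symm e1.symm
    have hs : s (al x).1 = !s x.1 := by
      have := a2 x (hall x)
      simp only [le, e1, e2] at this
      refine Bool.eq_not_of_ne fun e => ?_
      rw [e] at this
      exact iv_ne _ this.symm
    obtain ⟨γ, hγ⟩ := kill (fun a => mk [R (lab x.1) a]) x.2
    let v : Dt (Fin (n + 1)) L → FreeGroup (Fin d) := fun z =>
      if z = x ∨ z = al x then sgF (s z.1) γ else mk [le lab s R z]
    have v1 : (W.map v).prod = 1 := by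
      refine a3.prod v ?_
      rintro _ ⟨z, rfl⟩ -
      simp only [List.map_cons, List.map_nil, prod_cons, prod_nil, mul_one, v]
      by_cases hz : z = x
      · simp [hz, hs, sgF_not]
      · by_cases hz' : z = al x
        · simp [hz', a1, hs, sgF_not]
        · have g1 : al z ≠ x := fun e => hz' (by rw [← e, a1])
          have g2 : al z ≠ al x := fun e => hz (by rw [← a1 z, e, a1])
          rw [if_neg (not_or.2 ⟨hz, hz'⟩), if_neg (not_or.2 ⟨g1, g2⟩), a2 z (hall z), mk_iv,
            mul_inv_cancel]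
    have v2 : ∀ f, f ≠ x.1 → f ≠ (al x).1 →
        ((cyc s L f).map v).prod = sgF (s f) (el (R (lab f))) := by
      intro f g1 g2
      rw [el_eq]
      refine prod_cyc s f _ _ fun a => ?_
      have : ¬ ((f, a) = x ∨ (f, a) = al x) := by
        rintro (e | e)
        · exact g1 (congrArg Prod.fst e)
        · exact g2 (congrArg Prod.fst e)
      simp only [v, if_neg this]
      exact mk_sg _ _
    have v3 : ∀ f, f = x.1 ∨ f = (al x).1 → ((cyc s L f).map v).prod = 1 := by
      intro f hf
      rw [prod_cyc s f v (Function.update (fun a => mk [R (lab x.1) a]) x.2 γ) fun a => ?_, hγ]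
      · simp [sgF]
      · by_cases ha : a = x.2
        · have : (f, a) = x ∨ (f, a) = al x :=
            hf.imp (fun e => Prod.ext e ha) fun e => Prod.ext e (ha.trans e2.symm)
          simp only [v, if_pos this]
          rw [ha, Function.update_self]
        · have : ¬ ((f, a) = x ∨ (f, a) = al x) := by
            rintro (e | e)
            · exact ha (congrArg Prod.snd e)
            · exact ha ((congrArg Prod.snd e).trans e2)
          have h8 : lab f = lab x.1 := by
            rcases hf with e | e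
            · rw [e]
            · rw [e, e1]
          simp only [v, if_neg this, Function.update_of_ne ha, le, h8]
          exact mk_sg _ _
    let q : Dt (Fin (n + 1)) L → Bool := fun z =>
      decide (z.2 = 0 ∧ z.1 ≠ x.1 ∧ z.1.val < n)
    obtain ⟨k, z, z1, z2, z3⟩ := sound (R := R) v q j1 (by
      rintro _ ⟨f, hf, p, r, e, rfl⟩
      have g0 : ((r ++ p).map v).prod =
          (p.map v).prod⁻¹ * ((cyc s L f).map v).prod * (p.map v).prod⁻¹⁻¹ := by
        rw [e]; simp only [List.map_append, prod_append]; group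
      by_cases hc : f = x.1 ∨ f = (al x).1
      · exact ⟨0, by rw [g0, v3 f hc]; simpa using Ar.nil, Nat.zero_le _⟩
      · rw [not_or] at hc
        refine ⟨0 + 1, ?_, countP_pos_iff.2 ⟨(f, 0), ?_, by simp [q, hc.1, hf]⟩⟩
        · rw [g0, v2 f hc.1 hc.2, ← one_mul (_ * _ * _)]
          exact Ar.nil.snoc ⟨lab f, hlab f hf, s f, _, rfl⟩
        · have := (mem_cyc s (x := ((f, 0) : Dt _ L))).2 rfl
          rw [e] at this
          simpa [or_comm] using this)
    rw [v1, v2 _ (fun e => by rw [← e] at f2; simp at f2) (fun e => by rw [← e] at f1; simp at f1),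
      hlast.1, hlast.2] at z2
    have z4 : el (R 0) = z⁻¹ := eq_inv_of_mul_eq_one_left z2.symm
    have z5 := hmin k (z4 ▸ z1.inv)
    have z6 : W.countP q < n := by
      rw [countP_eq_length_filter, ← List.toFinset_card_of_nodup (hnd.filter _)]
      have : ((Finset.range n).erase x.1.val).card < n := by
        rw [Finset.card_erase_of_mem (Finset.mem_range.2 f2), Finset.card_range]
        omega
      refine lt_of_le_of_lt (Finset.card_le_card_of_injOn (fun z => z.1.val) ?_ ?_) this
      · intro z hz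
        simp only [coe_toFinset, mem_filter, q, decide_eq_true_eq, Set.mem_ofPred_eq] at hz
        exact Finset.mem_coe.2 (Finset.mem_erase.2
          ⟨Fin.val_ne_of_ne hz.2.2.1, Finset.mem_range.2 hz.2.2.2⟩)
      · intro z hz z' hz' e
        simp only [coe_toFinset, mem_filter, q, decide_eq_true_eq, Set.mem_ofPred_eq] at hz hz'
        exact Prod.ext (Fin.ext e) (hz.2.1.trans hz'.2.1.symm)
    omega

end Pool.Agent.MP_0de6ea_al.RW
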