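import Pool.Agent.MP_0de6ea_al.RW.Nest

/-! Deleting a cancelling pair of the root word, and the matching of a free reduction. -/

namespace Pool.Agent.MP_0de6ea_al.RW.Vk

open List FreeGroup

variable {X : Type} {d : ℕ} {blk : List X → Prop} (le : X → Lt d)

/-- The element of the free group read along a list. -/
def val (W : List X) : FreeGroup (Fin d) := mk (W.map le)

theorem val_nil : val le [] = 1 := rfl

theorem val_append (A B : List X) : val le (A ++ B) = val le A * val le B := by
  simp only [val, List.map_append, mk_app]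

theorem val_cons (x : X) (B : List X) : val le (x :: B) = mk [le x] * val le B := mk_con _ _

theorem val_eq_prod (W : List X) : val le W = (W.map fun x => mk [le x]).prod := by
  induction W with
  | nil => rfl
  | cons x W ih => rw [val_cons, ih, List.map_cons, List.prod_cons]

theorem reloc {b c A B U C1 C2 : List X} (hA : NeB blk b A) (hB : NeB blk c B)
    (hU : NeB blk [] U) (e : B ++ A = C1 ++ C2)
    (hv : val le C1 * val le U * val le C2 = 1) :
    ∃ W, NeB blk (b ++ c) W ∧ val le W = 1 ∧ W ~ A ++ U ++ B := by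
  have hAB := hA.append hB
  rcases append_eq_append_iff.1 e with ⟨E, rfl, rfl⟩ | ⟨E, rfl, rfl⟩
  · refine ⟨E ++ U ++ (C2 ++ B), NeB.nest (by simpa using hAB) hU, ?_, ?_⟩
    · simp only [val_append] at hv ⊢
      have : val le E * val le U * (val le C2 * val le B) =
          (val le B)⁻¹ * (val le B * val le E * val le U * val le C2) * val le B := by group
      rw [this, hv]; group
    · simp only [append_assoc]
      exact Perm.append_left _ (perm_append_comm_assoc _ _ _)
  · refine ⟨A ++ C1 ++ U ++ E, NeB.nest (by simpa using hAB) hU, ?_, ?_⟩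
    · simp only [val_append] at hv ⊢
      have : val le A * val le C1 * val le U * val le E =
          val le A * (val le C1 * val le U * (val le E * val le A)) * (val le A)⁻¹ := by group
      rw [this, hv]; group
    · simp only [append_assoc]
      exact Perm.append_left _ (perm_append_comm_assoc _ _ _)

theorem del (hr : ∀ p q, blk (p ++ q) → blk (q ++ p)) {b c W : List X} {x x' : X}
    (hx : le x' = iv (le x)) (h : NeB blk (b ++ x :: x' :: c) W) (hv : val le W = 1) :
    ∃ W', NeB blk (b ++ c) W' ∧ val le W' = 1 ∧ W ~ x :: x' :: W' := by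
  obtain ⟨A, B', rfl, hA, h2⟩ := h.loc
  obtain ⟨U, B, rfl, hU, hB⟩ := NeB.loc (b := []) h2
  have hp : ∀ W' U', U' ~ U → W' ~ A ++ U' ++ B → A ++ x :: (U ++ x' :: B) ~ x :: x' :: W' := by
    intro W' U' h1 h2
    refine perm_middle.trans (Perm.cons _ ?_)
    rw [← append_assoc]
    exact perm_middle.trans (Perm.cons _
      (h2.trans ((h1.append_left A).append_right B)).symm)
  simp only [val_append, val_cons, hx, mk_iv] at hv
  have hv' : val le U * (mk [le x])⁻¹ * (val le B * val le A) * mk [le x] = 1 := by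
    have : val le U * (mk [le x])⁻¹ * (val le B * val le A) * mk [le x] =
        (val le A * mk [le x])⁻¹ * (val le A * (mk [le x] * (val le U *
          ((mk [le x])⁻¹ * val le B)))) * (val le A * mk [le x]) := by group
    rw [this, hv]; group
  by_cases hu : val le U = 1
  · refine ⟨A ++ U ++ B, (hA.append hB).nest hU, ?_, hp _ U (Perm.refl _) (Perm.refl _)⟩
    rw [hu] at hv
    simp only [val_append, hu]
    refine Eq.trans ?_ hv
    group
  · have hV : val le (x' :: (B ++ A ++ [x])) = (val le U)⁻¹ := by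
      simp only [val_append, val_cons, hx, mk_iv, val_nil]
      rw [eq_inv_iff_mul_eq_one, mul_eq_one_comm]
      refine Eq.trans ?_ hv'
      group
    obtain ⟨y, S, hS⟩ : ∃ y S, (val le U)⁻¹.toWord = y :: S := by
      refine exists_cons_of_ne_nil fun e => hu ?_
      rwa [toWord_eq_nil_iff, inv_eq_one] at e
    have r1 : FreeGroup.Red ((x' :: (B ++ A ++ [x])).map le) ([] ++ y :: S) := by
      rw [nil_append, ← hS, ← hV, val, toWord_mk]
      exact reduce.red
    have r2 : FreeGroup.Red (U.map le) (invRev S ++ iv y :: []) := by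
      have : invRev S ++ [iv y] = (val le U).toWord := by
        rw [← inv_inv (val le U), toWord_inv, hS]
        simp [invRev, iv]
      rw [this, val, toWord_mk]
      exact reduce.red
    obtain ⟨Va, Vb, e1, a1, -⟩ := red_split r1
    rcases Va with _ | ⟨z, Va⟩
    · obtain ⟨Ua, Ub, e2, -, a2⟩ := red_split r2
      obtain ⟨U1, U2, rfl, -, e3⟩ := map_eq_append_iff.1 e2
      have hy : y = iv (le x) := by
        rw [← hx]
        exact (cons.inj e1).1.symm
      have a3 : val le U2 = mk [le x] := by rw [val, e3, mk_con, a2, hy, iv_iv, mk_nil, mul_one]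
      obtain ⟨W', k1, k2, k3⟩ := reloc le hA hB (hU.rot hr U1 U2 rfl) (C1 := []) (C2 := B ++ A) rfl
        (by
          simp only [val_append, a3, val_nil] at hv' ⊢
          have : 1 * (mk [le x] * val le U1) * (val le B * val le A) = mk [le x] *
            (val le U1 * mk [le x] * (mk [le x])⁻¹ * (val le B * val le A) * mk [le x]) *
            (mk [le x])⁻¹ := by group
          rw [this, hv']; group)
      exact ⟨W', k1, k2, hp _ _ perm_append_comm k3⟩
    · obtain ⟨-, e2⟩ := cons.inj e1
      obtain ⟨C1, C3, e3, e4, e5⟩ := map_eq_append_iff.1 e2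
      have hz : z = iv (le x) := by
        rw [← hx]
        exact (cons.inj e1).1.symm
      obtain ⟨C2, rfl, e6⟩ : ∃ C2, C3 = C2 ++ [x] ∧ B ++ A = C1 ++ C2 := by
        rcases eq_nil_or_concat C3 with rfl | ⟨C2, w, rfl⟩
        · simp at e5
        · rw [concat_eq_append, ← append_assoc] at e3
          obtain ⟨k1, k2⟩ := append_inj' e3 rfl
          exact ⟨C2, by rw [concat_eq_append, k2], k1⟩
      have a3 : val le C1 = mk [le x] := by
        rw [mk_con, hz, mk_iv, mk_nil, inv_mul_eq_one] at a1
        rw [val, e4, a1]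
      obtain ⟨W', k1, k2, k3⟩ := reloc le hA hB hU e6 (by
        rw [← val_append, e6, val_append, a3] at hv'
        have : mk [le x] * val le U * val le C2 = mk [le x] *
          (val le U * (mk [le x])⁻¹ * (mk [le x] * val le C2) * mk [le x]) *
          (mk [le x])⁻¹ := by group
        rw [a3, this, hv']; group)
      exact ⟨W', k1, k2, hp _ _ (Perm.refl _) k3⟩

theorem red_close {Y : Type} (le : Y → Lt d) {blk : List (Lt d ⊕ Y) → Prop}
    (hr : ∀ p q, blk (p ++ q) → blk (q ++ p)) {w w' : List (Lt d)} (h : FreeGroup.Red w w')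
    {W D : List (Lt d ⊕ Y)} (h1 : NeB blk (w.map Sum.inl) W) (h2 : val (Sum.elim id le) W = 1)
    (h3 : W ~ w.map Sum.inl ++ D) :
    ∃ W', NeB blk (w'.map Sum.inl) W' ∧ val (Sum.elim id le) W' = 1 ∧ W' ~ w'.map Sum.inl ++ D := by
  induction h with
  | refl => exact ⟨W, h1, h2, h3⟩
  | tail _ st ih =>
    obtain ⟨W1, k1, k2, k3⟩ := ih
    rcases st with @⟨L1, L2, x, b⟩
    simp only [List.map_append, List.map_cons] at k1 k3 ⊢
    obtain ⟨W2, j1, j2, j3⟩ := del (Sum.elim id le) hr (x := Sum.inl (x, b))
      (x' := Sum.inl (x, !b)) rfl k1 k2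
    refine ⟨W2, j1, j2, ?_⟩
    have := j3.symm.trans k3
    rw [append_assoc, cons_append, cons_append] at this
    have h4 := (this.trans perm_middle).cons_inv
    rw [append_assoc]
    exact (h4.trans perm_middle).cons_inv

theorem relabel {Y : Type} (le : Y → Lt d) {blk : List Y → Prop} {h : List Y}
    {W : List (Lt d ⊕ Y)}
    (h1 : NeB (fun g => ∃ g0, blk g0 ∧ g = g0.map Sum.inr) ((h.map le).map Sum.inl) W) :
    ∃ W' : List Y, NeB blk h W' ∧ W'.map le = W.map (Sum.elim id le) ∧
      W' ~ h ++ W.filterMap Sum.getRight? := by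
  induction h1 with
  | base => exact ⟨h, NeB.base, by simp [Function.comp_def], by simp [filterMap_map]⟩
  | @ins A B g _ hb ih =>
    obtain ⟨g0, hg, rfl⟩ := hb
    obtain ⟨W', k1, k2, k3⟩ := ih
    rw [List.map_append] at k2
    obtain ⟨A', B', rfl, e1, e2⟩ := map_eq_append_iff.1 k2
    refine ⟨A' ++ g0 ++ B', k1.ins hg, by simp [e1, e2, Function.comp_def], ?_⟩
    have e3 : (g0.map (Sum.inr : Y → Lt d ⊕ Y)).filterMap Sum.getRight? = g0 := by
      simp [filterMap_map]
    simp only [filterMap_append, e3] at k3 ⊢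
    have p1 : A' ++ g0 ++ B' ~ g0 ++ (A' ++ B') := by
      rw [append_assoc]; exact perm_append_comm_assoc _ _ _
    refine p1.trans ((k3.append_left g0).trans ?_)
    rw [append_assoc]
    exact (perm_append_comm_assoc _ _ _).trans
      (Perm.append_left _ (perm_append_comm_assoc _ _ _))

/-- The matching of a free reduction. -/
theorem matching [DecidableEq X] {w : List (Lt d)} (h : FreeGroup.Red w []) :
    ∀ W : List X, W.map le = w → W.Nodup → ∃ al : X → X, (∀ x, al (al x) = x) ∧
      (∀ x, x ∉ W → al x = x) ∧ (∀ x ∈ W, le (al x) = iv (le x)) ∧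
      NeB (fun g => ∃ x, g = [x, al x]) [] W := by
  induction h using Relation.ReflTransGen.head_induction_on with
  | refl =>
    intro W e _
    obtain rfl := map_eq_nil_iff.1 e
    exact ⟨id, fun _ => rfl, fun _ _ => rfl, by simp, NeB.base⟩
  | head st _ ih =>
    intro W e hn
    rcases st with @⟨L1, L2, a, b⟩
    obtain ⟨A, B1, rfl, e1, e2⟩ := map_eq_append_iff.1 e
    obtain ⟨x, B2, rfl, ex, e3⟩ := map_eq_cons_iff.1 e2
    obtain ⟨y, B, rfl, ey, e4⟩ := map_eq_cons_iff.1 e3
    have hp : A ++ x :: y :: B ~ x :: y :: (A ++ B) := perm_middle.trans (perm_middle.cons _)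
    have hn' := hp.nodup_iff.1 hn
    simp only [nodup_cons, mem_cons, not_or] at hn'
    obtain ⟨⟨hxy, hx⟩, hy, hn'⟩ := hn'
    obtain ⟨al, k1, k2, k3, k4⟩ := ih (A ++ B) (by rw [List.map_append, e1, e4]) hn'
    have hal : ∀ z, z ≠ x → z ≠ y → al z ≠ x ∧ al z ≠ y := fun z h1 h2 =>
      ⟨fun e => h1 (by rw [← k1 z, e, k2 x hx]), fun e => h2 (by rw [← k1 z, e, k2 y hy])⟩
    refine ⟨fun z => if z = x then y else if z = y then x else al z, fun z => ?_, fun z hz => ?_,
      fun z hz => ?_, ?_⟩
    · by_cases h1 : z = x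
      · simp [h1, Ne.symm hxy]
      · by_cases h2 : z = y
        · simp [h2, Ne.symm hxy]
        · simp [h1, h2, hal z h1 h2, k1]
    · have := mt hp.mem_iff.2 hz
      simp only [mem_cons, not_or] at this
      simp [this.1, this.2.1, k2 z this.2.2]
    · by_cases h1 : z = x
      · simp [h1, ex, ey, iv]
      · by_cases h2 : z = y
        · simp [h2, Ne.symm hxy, ex, ey, iv]
        · have := hp.mem_iff.1 hz
          simp only [mem_cons, h1, h2, false_or] at this
          simp [h1, h2, k3 z this]
    · have e5 : A ++ x :: y :: B = A ++ [x, y] ++ B := by simp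
      rw [e5]
      refine NeB.ins (k4.mono ?_) ⟨x, by simp⟩
      rintro _ ⟨z, rfl⟩ hs
      have hz : z ∈ A ++ B := hs (by simp)
      have h1 : z ≠ x := fun e => hx (e ▸ hz)
      have h2 : z ≠ y := fun e => hy (e ▸ hz)
      exact ⟨z, by simp [h1, h2]⟩

end Pool.Agent.MP_0de6ea_al.RW.Vk
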